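import Pool.Agent.R703.FS.Id
import Pool.Agent.R663.GA.Sep

/-!
# Comparison of the sums over blocks for a group and a local subgroup
-/

set_option autoImplicit false
set_option linter.unusedSectionVars false
set_option linter.unusedVariables false

open scoped Classical
open Finset

noncomputable section

namespace Pool.Agent.R703.FS

open Pool.Agent.Y63.AWC (IsIrreducibleCharacter)
open Pool.Agent.Y63.NV
open Pool.Agent.Helper884.IC (Irr mem_Irr)
open Pool.Agent.Y171.NV (CFm)
open Pool.Agent.R663.GA (cmon blkM)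
open Pool.Agent.Y63.NV.B930 (sum_fixed fx mem_fx)

section indep

variable {F : Type} [Field F] {G : Type} [Group G] [Finite G]

/-- distinct blocks are linearly independent -/
theorem indep {ι ι' : Type} (s : Finset ι) (c : ι → F) (μ : ι → (G → F) → F)
    (hμ : ∀ i ∈ s, IsBlock (μ i)) (s' : Finset ι') (c' : ι' → F) (μ' : ι' → (G → F) → F)
    (hμ' : ∀ i ∈ s', IsBlock (μ' i))
    (h0 : ∀ f : G → F, IsClassFun f → ∑ i ∈ s, μ i f * c i = ∑ i ∈ s', μ' i f * c' i)
    {B : (G → F) → F} (hB : IsBlock B) :
    ∑ i ∈ s.filter (fun i => ∀ f, IsClassFun f → μ i f = B f), c i =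
      ∑ i ∈ s'.filter (fun i => ∀ f, IsClassFun f → μ' i f = B f), c' i := by
  let _ := cmon G F
  have li : LinearIndependent F (fun φ : CFm G F →* F => (φ : CFm G F → F)) :=
    linearIndependent_monoidHom (CFm G F) F
  rw [linearIndependent_iff'] at li
  let m : ι → (CFm G F →* F) := fun i => if h : IsBlock (μ i) then blkM h else 1
  let m' : ι' → (CFm G F →* F) := fun i => if h : IsBlock (μ' i) then blkM h else 1
  have hm : ∀ i ∈ s, ∀ f : CFm G F, m i f = μ i f.1 := by
    intro i hi f
    simp only [m]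
    rw [dif_pos (hμ i hi)]
    rfl
  have hm' : ∀ i ∈ s', ∀ f : CFm G F, m' i f = μ' i f.1 := by
    intro i hi f
    simp only [m']
    rw [dif_pos (hμ' i hi)]
    rfl
  let t : Finset (CFm G F →* F) := insert (blkM hB) (s.image m ∪ s'.image m')
  let g : (CFm G F →* F) → F := fun φ =>
    ∑ i ∈ s.filter (fun i => m i = φ), c i - ∑ i ∈ s'.filter (fun i => m' i = φ), c' i
  have h1 : ∑ φ ∈ t, g φ • (φ : CFm G F → F) = 0 := by
    funext f
    rw [Finset.sum_apply]
    have e1 : ∀ φ ∈ t, (g φ • (φ : CFm G F → F)) f =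
        ∑ i ∈ s.filter (fun i => m i = φ), m i f * c i -
          ∑ i ∈ s'.filter (fun i => m' i = φ), m' i f * c' i := by
      intro φ _
      simp only [g, Pi.smul_apply, smul_eq_mul]
      rw [sub_mul, Finset.sum_mul, Finset.sum_mul]
      congr 1
      · refine Finset.sum_congr rfl fun i hi => ?_
        rw [(Finset.mem_filter.1 hi).2, mul_comm]
      · refine Finset.sum_congr rfl fun i hi => ?_
        rw [(Finset.mem_filter.1 hi).2, mul_comm]
    rw [Finset.sum_congr rfl e1, Finset.sum_sub_distrib,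
      Finset.sum_fiberwise_of_maps_to (s := s) (t := t) (g := m) (fun i hi =>
        Finset.mem_insert_of_mem (Finset.mem_union_left _ (Finset.mem_image_of_mem m hi))),
      Finset.sum_fiberwise_of_maps_to (s := s') (t := t) (g := m') (fun i hi =>
        Finset.mem_insert_of_mem (Finset.mem_union_right _ (Finset.mem_image_of_mem m' hi)))]
    have e2 : ∑ i ∈ s, m i f * c i = ∑ i ∈ s, μ i f.1 * c i :=
      Finset.sum_congr rfl fun i hi => by rw [hm i hi f]
    have e3 : ∑ i ∈ s', m' i f * c' i = ∑ i ∈ s', μ' i f.1 * c' i :=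
      Finset.sum_congr rfl fun i hi => by rw [hm' i hi f]
    rw [e2, e3, h0 f.1 f.2, sub_self]
    rfl
  have h2 := li t g h1 (blkM hB) (Finset.mem_insert_self _ _)
  have h3 : ∑ i ∈ s.filter (fun i => m i = blkM hB), c i =
      ∑ i ∈ s'.filter (fun i => m' i = blkM hB), c' i := sub_eq_zero.1 h2
  have e4 : s.filter (fun i => ∀ f, IsClassFun f → μ i f = B f) =
      s.filter (fun i => m i = blkM hB) := by
    refine Finset.filter_congr fun i hi => ?_
    constructor
    · intro h
      refine MonoidHom.ext fun f => ?_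
      rw [hm i hi f, h f.1 f.2]
      rfl
    · intro h f hf
      have := hm i hi ⟨f, hf⟩
      rw [h] at this
      exact this.symm
  have e5 : s'.filter (fun i => ∀ f, IsClassFun f → μ' i f = B f) =
      s'.filter (fun i => m' i = blkM hB) := by
    refine Finset.filter_congr fun i hi => ?_
    constructor
    · intro h
      refine MonoidHom.ext fun f => ?_
      rw [hm' i hi f, h f.1 f.2]
      rfl
    · intro h f hf
      have := hm' i hi ⟨f, hf⟩
      rw [h] at this
      exact this.symm
  rw [e4, e5, h3]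

end indep

section loc

variable {p : ℕ} [Fact p.Prime] {F : Type} [Field F] [CharP F p] {G : Type} [Group G] [Fintype G]

/-- sums of class functions over a group and a local subgroup -/
theorem sum_local {Q H : Subgroup G} (hQ : IsPGroup p Q) (hQH : Q ≤ H)
    (hC : Subgroup.centralizer (Q : Set G) ≤ H) (h : G → F)
    (hh : ∀ q ∈ Q, ∀ g, h (q * g * q⁻¹) = h g) : ∑ g : G, h g = ∑ x : H, h x := by
  let _ : MulAction Q G := MulAction.compHom G (MulAut.conj.comp Q.subtype)
  have hact : ∀ (q : Q) (y : G), q • y = (q : G) * y * (q : G)⁻¹ := fun q y => rfl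
  have h1 : ∑ g : G, (if g ∈ H then 0 else h g) = 0 := by
    rw [sum_fixed (p := p) (Q := Q) (Y := G) hQ (fun g => if g ∈ H then 0 else h g) (by
      intro q g
      rw [hact]
      have e : ((q : G) * g * (q : G)⁻¹ ∈ H) ↔ g ∈ H := by
        rw [Subgroup.mul_mem_cancel_right _ (H.inv_mem (hQH q.2)),
          Subgroup.mul_mem_cancel_left _ (hQH q.2)]
      simp only [e]
      rw [hh q q.2])]
    refine Finset.sum_eq_zero fun g hg => ?_
    have hg2 := (mem_fx _).1 hg
    rw [if_pos]
    apply hC
    rw [Subgroup.mem_centralizer_iff]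
    intro q hq
    have := hg2 ⟨q, hq⟩
    rw [hact] at this
    exact mul_inv_eq_iff_eq_mul.1 this
  have h2 : ∑ g : G, h g = ∑ g : G, (if g ∈ H then h g else 0) + ∑ g : G, (if g ∈ H then 0 else h g) := by
    rw [← Finset.sum_add_distrib]
    refine Finset.sum_congr rfl fun g _ => ?_
    split_ifs <;> simp
  rw [h2, h1, add_zero, ← Finset.sum_filter]
  symm
  refine Finset.sum_bij (fun (x : H) _ => (x : G)) ?_ ?_ ?_ ?_
  · intro x _
    exact Finset.mem_filter.2 ⟨Finset.mem_univ _, x.2⟩
  · intro a _ b _ hab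
    exact Subtype.ext hab
  · intro b hb
    exact ⟨⟨b, (Finset.mem_filter.1 hb).2⟩, Finset.mem_univ _, rfl⟩
  · intro a _
    rfl

/-- the block version -/
theorem block_F (red : integralClosure ℤ ℂ →+* F) {n : ℕ} (hn : 0 < n) {Q N : Subgroup G}
    (hQ : IsPGroup p Q) (hN : N = Subgroup.normalizer (Q : Set G)) {B : (G → F) → F}
    (hB : IsBlock B) :
    ∑ χ ∈ (Irr G).filter (fun χ => ∀ f : G → F, IsClassFun f → centralValue red χ f = B f),
        redC red (χ 1 * nuC n χ) =
      ∑ ψ ∈ (Irr N).filter (fun ψ => ∀ f : G → F, IsClassFun f →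
        centralValue red ψ (fun x : N => f x) = B f), redC red (ψ 1 * nuC n ψ) := by
  refine indep (Irr G) (fun χ => redC red (χ 1 * nuC n χ)) (fun χ => centralValue red χ)
    (fun χ hχ => Pool.Agent.Y930.NV.cvh F red G χ (mem_Irr.1 hχ)) (Irr N)
    (fun ψ => redC red (ψ 1 * nuC n ψ)) (fun ψ f => centralValue red ψ (fun x : N => f x))
    (fun ψ hψ => Pool.Agent.R674.KB.blk_up (p := p) hQ hN
      (Pool.Agent.Y930.NV.cvh F red N ψ (mem_Irr.1 hψ))) ?_ hB
  intro f hf
  have hQN : Q ≤ N := hN ▸ Subgroup.le_normalizer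
  have hCN : Subgroup.centralizer (Q : Set G) ≤ N := by
    rw [hN]
    exact Subgroup.centralizer_le_normalizer _
  have hfN : IsClassFun (fun x : N => f x) := fun g x => hf g x
  rw [key_F red hn hf, key_F (J := N) red hn hfN,
    sum_local (p := p) hQ hQN hCN (fun g : G => f ((g ^ n)⁻¹))]
  · rfl
  · intro q _ g
    show f _ = _
    have : ((q * g * q⁻¹) ^ n)⁻¹ = q * (g ^ n)⁻¹ * q⁻¹ := by
      rw [conj_pow]; group
    rw [this]
    exact hf q _

end loc

end Pool.Agent.R703.FS
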