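import Pool.Agent.Y63.NV.Defs

/-!
# Frobenius–Schur indicators and sums over characters of degree prime to `p`: definitions
-/

set_option autoImplicit false

open scoped Classical

noncomputable section

namespace Pool.Agent.R703.FS

open Pool.Agent.Y63.AWC (IsIrreducibleCharacter)

/-- The degree `χ(1)` is prime to `p`. -/
def PrimeTo (p : ℕ) {J : Type} [Group J] (χ : J → ℂ) : Prop := ∃ d : ℕ, χ 1 = d ∧ ¬ p ∣ d

/-- The `n`-th Frobenius–Schur indicator `ν_n(χ) = 1/|J| ∑ g, χ(g ^ n)`. -/
def indicator (n : ℕ) {J : Type} [Group J] (χ : J → ℂ) : ℂ :=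
  (Nat.card J : ℂ)⁻¹ * ∑ᶠ g : J, χ (g ^ n)

/-- The sum of `χ(1) ν_n(χ)` over the irreducible complex characters `χ` of `J` of degree prime to
`p` with the property `C`. -/
def fsSum (p n : ℕ) {J : Type} [Group J] (C : (J → ℂ) → Prop) : ℂ :=
  ∑ᶠ χ : {χ : J → ℂ // IsIrreducibleCharacter χ ∧ PrimeTo p χ ∧ C χ}, χ.1 1 * indicator n χ.1

/-- All values of `χ` are fixed by the automorphism `s` of the field of complex numbers. -/
def FixedBy (s : ℂ ≃+* ℂ) {J : Type} [Group J] (χ : J → ℂ) : Prop := ∀ g, s (χ g) = χ g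

/-- `s` fixes all roots of unity whose order divides `p` times the part of `N` prime to `p`.
(So `s` has `p`-power order on the field generated by the `N`-th roots of unity.) -/
def IsPPower (p N : ℕ) (s : ℂ ≃+* ℂ) : Prop :=
  ∀ z : ℂ, z ^ (p * (N / p ^ N.factorization p)) = 1 → s z = z

end Pool.Agent.R703.FS
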