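import Mathlib

/-!
# Automorphisms of `p`-power order on cyclotomic fields: definition
-/

set_option autoImplicit false

namespace Pool.Agent.R703.FS

/-- The automorphism of the field of the `N`-th roots of unity induced by the automorphism `s` of the
field of complex numbers has `p`-power order. -/
def PPowerOrder (p N : ℕ) (s : ℂ ≃+* ℂ) : Prop :=
  ∃ k : ℕ, ∀ z : ℂ, z ^ N = 1 → (fun y => s y)^[p ^ k] z = z

end Pool.Agent.R703.FS
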