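import Pool.Agent.R703.FS.Defs
import Pool.Agent.Y63.NV.Stm3

/-!
# Frobenius–Schur indicators and sums over characters of height zero: definitions
-/

set_option autoImplicit false

open scoped Classical

noncomputable section

namespace Pool.Agent.R703.FS

open Pool.Agent.Y63.AWC (IsIrreducibleCharacter)
open Pool.Agent.Y63.NV (IsClassFun centralValue)

/-- The part of `N` prime to `p`. -/
def primePart (p N : ℕ) : ℕ := N / p ^ N.factorization p

/-- The degree of `χ` is an integer with `χ(1)_p = |J : D|_p`. (For `χ` in a block with defect group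
`D` this says that `χ` has height zero.) -/
def HeightZero (p : ℕ) {J : Type} [Group J] (D : Subgroup J) (χ : J → ℂ) : Prop :=
  ∃ d : ℕ, χ 1 = d ∧ d.factorization p = D.index.factorization p

/-- The sum of `χ(1)_{p'} ν_n(χ)` over the irreducible complex characters `χ` of `J` with
`χ(1)_p = |J : D|_p` (so `χ(1)_{p'} = χ(1) / |J : D|_p`) and with the property `C`. -/
def htSum (p n : ℕ) {J : Type} [Group J] (D : Subgroup J) (C : (J → ℂ) → Prop) : ℂ :=
  ∑ᶠ χ : {χ : J → ℂ // IsIrreducibleCharacter χ ∧ HeightZero p D χ ∧ C χ},
    χ.1 1 / (p : ℂ) ^ D.index.factorization p * indicator n χ.1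

/-- `χ` lies in the block `B` of `J`. -/
def InBlock {F : Type} [Field F] (red : integralClosure ℤ ℂ →+* F) {J : Type} [Group J]
    (B : (J → F) → F) (χ : J → ℂ) : Prop :=
  ∀ f : J → F, IsClassFun f → centralValue red χ f = B f

/-- The character `ψ` of the subgroup `N` of `G` lies in a block `b` of `N` with `b^G = B`, that is,
the central character of `B` is the composition of the restriction of class functions to `N` and the
central character of `b`. -/
def InInduced {F : Type} [Field F] (red : integralClosure ℤ ℂ →+* F) {G : Type} [Group G]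
    (B : (G → F) → F) {N : Subgroup G} (ψ : N → ℂ) : Prop :=
  ∀ f : G → F, IsClassFun f → centralValue red ψ (fun x : N => f x) = B f

end Pool.Agent.R703.FS
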