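import Pool.Agent.R703.FS.Id

/-!
# The Frobenius–Schur indicators are rational integers
-/

set_option autoImplicit false
set_option linter.unusedSectionVars false
set_option linter.unusedVariables false

open scoped Classical
open Finset

noncomputable section

namespace Pool.Agent.R703.FS

open Pool.Agent.Y63.AWC (IsIrreducibleCharacter)
open Pool.Agent.Y63.NV
open Pool.Agent.Helper884.IC (Irr mem_Irr expand B_irr B IsIrrChar IsClass)
open Pool.Agent.R721.CD (IsRepChar mult_nat_rep expand_at)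
open Pool.Agent.R677.FV (exists_sigma galois_value)

section

variable {J : Type} [Group J] [Fintype J]

theorem nuC_sigma {n : ℕ} {χ : J → ℂ} (h : IsRepChar χ) (σ : ℂ ≃+* ℂ) (t : ℕ)
    (ht : t.Coprime (Nat.card J)) (hσ : ∀ z : ℂ, z ^ (Nat.card J) = 1 → σ z = z ^ t) :
    σ (nuC n χ) = nuC n χ := by
  unfold nuC
  rw [map_mul, map_inv₀, map_natCast, map_sum]
  congr 1
  rw [← Equiv.sum_comp (Pool.Agent.R663.GA.powE J ht) (fun g => χ (g ^ n))]
  refine Finset.sum_congr rfl fun g _ => ?_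
  rw [galois_value h σ t hσ, Pool.Agent.R663.GA.powE_apply, ← pow_mul, ← pow_mul, mul_comm]

theorem nuC_rat_aux (L : Type) [Field L] [Algebra ℚ L] (N : ℕ) [NeZero N]
    [IsCyclotomicExtension {N} ℚ L] (hN : Nat.card J = N) {n : ℕ} (hn : 0 < n) {χ : J → ℂ}
    (h : IsRepChar χ) : ∃ z : ℤ, nuC n χ = z := by
  have hζ : IsPrimitiveRoot (IsCyclotomicExtension.zeta N ℚ L) N :=
    IsCyclotomicExtension.zeta_spec N ℚ L
  have hfd := IsCyclotomicExtension.finiteDimensional {N} ℚ L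
  have halg : Algebra.IsAlgebraic ℚ L := Algebra.IsAlgebraic.of_finite ℚ L
  have hgal : IsGalois ℚ L := IsCyclotomicExtension.isGalois {N} ℚ L
  let φ : L →ₐ[ℚ] ℂ := IsAlgClosed.lift
  have hφζ : IsPrimitiveRoot (φ (IsCyclotomicExtension.zeta N ℚ L)) N :=
    hζ.map_of_injective φ.injective
  let K : Subfield ℂ := φ.toRingHom.fieldRange
  have hK : ∀ z : ℂ, z ^ Nat.card J = 1 → z ∈ K := by
    intro z hz
    rw [hN] at hz
    obtain ⟨i, -, hi⟩ := hφζ.eq_pow_of_pow_eq_one hz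
    rw [← hi]
    refine pow_mem ?_ i
    exact ⟨_, rfl⟩
  have hmem : nuC n χ ∈ K := by
    unfold nuC
    refine mul_mem (inv_mem (natCast_mem K _)) (sum_mem fun g _ => ?_)
    exact Pool.Agent.R663.GA.val_mem K hK h _
  obtain ⟨x, hx⟩ := hmem
  have hx' : φ x = nuC n χ := hx
  have hfix : ∀ τ : Gal(L/ℚ), τ x = x := by
    intro τ
    have hτ : IsPrimitiveRoot (τ (IsCyclotomicExtension.zeta N ℚ L)) N :=
      hζ.map_of_injective τ.injective
    obtain ⟨t, ht1, ht3, ht4⟩ := hζ.isPrimitiveRoot_iff.1 hτ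
    obtain ⟨σ, hσ⟩ := exists_sigma N (NeZero.ne N) t ht3
    have e : (σ.toRingHom.comp φ.toRingHom).toRatAlgHom = (φ.comp τ.toAlgHom) := by
      apply (hζ.powerBasis ℚ).algHom_ext
      rw [hζ.powerBasis_gen ℚ]
      change σ (φ _) = φ (τ _)
      rw [hσ _ hφζ.pow_eq_one, ← map_pow, ht4]
    have e2 : σ (φ x) = φ (τ x) := DFunLike.congr_fun e x
    rw [hx'] at e2
    have e3 : σ (nuC n χ) = nuC n χ :=
      nuC_sigma h σ t (by rw [hN]; exact ht3) (by rw [hN]; exact hσ)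
    rw [e3, ← hx'] at e2
    exact (φ.injective e2).symm
  obtain ⟨q, hq⟩ := IsGalois.mem_range_algebraMap_iff_fixed x |>.2 hfix
  have h1 : nuC n χ = ((q : ℚ) : ℂ) := by
    rw [← hx', ← hq]
    simp
  have h2 : IsIntegral ℤ (algebraMap ℚ ℂ q) := by
    have := nuC_int hn h
    rw [h1] at this
    exact this
  have h3 : IsIntegral ℤ q := (isIntegral_algebraMap_iff (algebraMap ℚ ℂ).injective).1 h2
  obtain ⟨z, hz⟩ := IsIntegrallyClosed.isIntegral_iff.1 h3
  refine ⟨z, ?_⟩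
  rw [h1, ← hz]
  simp

theorem nuC_rat {n : ℕ} (hn : 0 < n) {χ : J → ℂ} (h : IsRepChar χ) : ∃ z : ℤ, nuC n χ = z := by
  have : NeZero (Nat.card J) := ⟨Nat.card_pos.ne'⟩
  exact @nuC_rat_aux J _ _ (CyclotomicField (Nat.card J) ℚ) _ (CyclotomicField.algebra _ ℚ)
    (Nat.card J) _ inferInstance rfl n hn χ h

end

end Pool.Agent.R703.FS
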