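import Pool.Agent.R703.FS.Defs
import Pool.Agent.R703.FS.Rat
import Pool.Agent.R703.FS.Blk

/-!
# Integer weights, the sums over all characters, and fixed points of power maps
-/

set_option autoImplicit false
set_option linter.unusedSectionVars false
set_option linter.unusedVariables false

open scoped Classical
open Finset

noncomputable section

namespace Pool.Agent.R703.FS

open Pool.Agent.Y63.AWC (IsIrreducibleCharacter)
open Pool.Agent.Y63.NV
open Pool.Agent.Y930.NV (Cf om irr_one_ne redC_intCast)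
open Pool.Agent.Helper884.IC (Irr mem_Irr)
open Pool.Agent.R721.CD (IsRepChar)
open Pool.Agent.R677.FV (exists_sigma galois_value)
open Pool.Agent.Y63.NV.B930 (sum_fixed fx mem_fx)
open Pool.Agent.R663.GA (irr_pow)

section

variable {J : Type} [Group J] [Fintype J]

/-- the integer `χ(1) ν_n(χ)` -/
def w (n : ℕ) (χ : J → ℂ) : ℤ :=
  if h : ∃ z : ℤ, χ 1 * nuC n χ = z then h.choose else 0

theorem w_spec {n : ℕ} (hn : 0 < n) {χ : J → ℂ} (h : IsIrreducibleCharacter χ) :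
    ((w n χ : ℤ) : ℂ) = χ 1 * nuC n χ := by
  have h1 : ∃ z : ℤ, χ 1 * nuC n χ = z := by
    obtain ⟨d, hd⟩ := deg_nat h
    obtain ⟨z, hz⟩ := nuC_rat hn (irr_rep h)
    exact ⟨d * z, by rw [hd, hz]; push_cast; ring⟩
  unfold w
  rw [dif_pos h1]
  exact h1.choose_spec.symm

theorem w_dvd {p n : ℕ} (hn : 0 < n) {χ : J → ℂ} (h : IsIrreducibleCharacter χ)
    (hp : ¬ PrimeTo p χ) : (p : ℤ) ∣ w n χ := by
  obtain ⟨d, hd⟩ := deg_nat h
  obtain ⟨z, hz⟩ := nuC_rat hn (irr_rep h)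
  have h1 : w n χ = d * z := by
    have := w_spec hn h
    rw [hd, hz] at this
    exact_mod_cast this
  have h2 : p ∣ d := by
    by_contra h3
    exact hp ⟨d, hd, h3⟩
  rw [h1]
  exact Dvd.dvd.mul_right (Int.natCast_dvd_natCast.2 h2) z

theorem cnt {n : ℕ} (hn : 0 < n) :
    ∑ χ ∈ Irr J, w n χ = ((univ.filter fun g : J => g ^ n = 1).card : ℤ) := by
  have hf : Cf (fun g : J => if g = 1 then (1 : ℂ) else 0) := by
    intro g x
    have : g * x * g⁻¹ = 1 ↔ x = 1 := by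
      constructor
      · intro h
        have h2 : x = g⁻¹ * (g * x * g⁻¹) * g := by group
        rw [h2, h]
        group
      · intro h
        rw [h]
        group
    simp only [this]
  have h1 := key_C n hf
  have h2 : ∀ χ ∈ Irr J, om χ (fun g : J => if g = 1 then (1 : ℂ) else 0) * (χ 1 * nuC n χ) =
      ((w n χ : ℤ) : ℂ) := by
    intro χ hχ
    have h3 : om χ (fun g : J => if g = 1 then (1 : ℂ) else 0) = 1 := by
      unfold om
      rw [Finset.sum_eq_single (1 : J)]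
      · show (if (1 : J) = 1 then (1 : ℂ) else 0) * χ 1 / χ 1 = 1
        rw [if_pos rfl, one_mul, div_self (irr_one_ne (mem_Irr.1 hχ))]
      · intro g _ hg
        show (if g = 1 then (1 : ℂ) else 0) * χ g = 0
        rw [if_neg hg, zero_mul]
      · intro h
        exact absurd (Finset.mem_univ _) h
    rw [h3, one_mul, w_spec hn (mem_Irr.1 hχ)]
  rw [Finset.sum_congr rfl h2] at h1
  have h4 : ∑ g : J, (if (g ^ n)⁻¹ = 1 then (1 : ℂ) else 0) =
      (((univ.filter fun g : J => g ^ n = 1).card : ℤ) : ℂ) := by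
    rw [Finset.sum_ite, Finset.sum_const_zero, add_zero, Finset.sum_const, nsmul_eq_mul, mul_one]
    simp only [inv_eq_one]
    push_cast
    rfl
  rw [h4] at h1
  exact_mod_cast h1

/-- the weights do not change under coprime power maps -/
theorem w_pow {n : ℕ} (χ : J → ℂ) {v : ℕ} (hv : v.Coprime (Nat.card J)) :
    w n (fun y => χ (y ^ v)) = w n χ := by
  have h1 : (fun y => χ (y ^ v)) 1 * nuC n (fun y => χ (y ^ v)) = χ 1 * nuC n χ := by
    have e : (fun y => χ (y ^ v)) 1 = χ 1 := by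
      show χ (1 ^ v) = χ 1
      rw [one_pow]
    rw [e]
    unfold nuC
    congr 2
    rw [← Equiv.sum_comp (Pool.Agent.R663.GA.powE J hv) (fun g => χ (g ^ n))]
    refine Finset.sum_congr rfl fun g _ => ?_
    rw [Pool.Agent.R663.GA.powE_apply]
    show χ ((g ^ n) ^ v) = _
    rw [← pow_mul, ← pow_mul, mul_comm]
  unfold w
  rw [h1]

/-- sums over a stable set of characters are sums over the fixed characters -/
theorem fixsum {p : ℕ} [Fact p.Prime] {F : Type} [Field F] [CharP F p] (s : Finset (J → ℂ))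
    {v k : ℕ} (hv : v.Coprime (Nat.card J)) (hk : v ^ (p ^ k) ≡ 1 [MOD Nat.card J])
    (hs : ∀ χ ∈ s, (fun y => χ (y ^ v)) ∈ s) (c : (J → ℂ) → F)
    (hc : ∀ χ ∈ s, c (fun y => χ (y ^ v)) = c χ) :
    ∑ χ ∈ s, c χ = ∑ χ ∈ s.filter (fun χ => ∀ y, χ (y ^ v) = χ y), c χ := by
  let π0 : {χ // χ ∈ s} → {χ // χ ∈ s} := fun χ => ⟨fun y => χ.1 (y ^ v), hs χ.1 χ.2⟩
  have hinj : Function.Injective π0 := by
    intro a b hab
    apply Subtype.ext
    funext y
    obtain ⟨x, hx⟩ := (Pool.Agent.R663.GA.pow_bij (J := J) hv).2 y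
    have h1 := congrFun (congrArg Subtype.val hab) x
    change a.1 (x ^ v) = b.1 (x ^ v) at h1
    change x ^ v = y at hx
    rwa [hx] at h1
  let π : Equiv.Perm {χ // χ ∈ s} :=
    Equiv.ofBijective π0 ((Finite.injective_iff_bijective).1 hinj)
  have hpow : ∀ (j : ℕ) (χ : {χ // χ ∈ s}) (y : J), ((π ^ j) χ).1 y = χ.1 (y ^ (v ^ j)) := by
    intro j
    induction j with
    | zero => intro χ y; simp
    | succ j ih =>
      intro χ y
      rw [pow_succ', Equiv.Perm.mul_apply]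
      change ((π ^ j) χ).1 (y ^ v) = _
      rw [ih, ← pow_mul, ← pow_succ']
  have hπ : π ^ (p ^ k) = 1 := by
    apply Equiv.ext
    intro χ
    apply Subtype.ext
    funext y
    rw [hpow]
    have h1 : y ^ (v ^ p ^ k) = y ^ 1 := by
      rw [pow_eq_pow_iff_modEq]
      exact hk.of_dvd (orderOf_dvd_natCard y)
    rw [h1, pow_one]
    rfl
  have hP : IsPGroup p (Subgroup.zpowers π) := by
    rintro ⟨g, i, rfl⟩
    refine ⟨k, Subtype.ext ?_⟩
    change (π ^ i) ^ (p ^ k) = 1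
    rw [← zpow_natCast, ← zpow_mul, mul_comm, zpow_mul, zpow_natCast, hπ, one_zpow]
  have hcπ : ∀ χ : {χ // χ ∈ s}, c (π χ).1 = c χ.1 := fun χ => hc χ.1 χ.2
  have hcinv : ∀ χ : {χ // χ ∈ s}, c (π⁻¹ χ).1 = c χ.1 := by
    intro χ
    have := hcπ (π⁻¹ χ)
    have e : π (π⁻¹ χ) = χ := by
      rw [← Equiv.Perm.mul_apply, mul_inv_cancel]
      rfl
    rw [e] at this
    exact this.symm
  have hall : ∀ (i : ℤ) (χ : {χ // χ ∈ s}), c ((π ^ i) χ).1 = c χ.1 := by
    intro i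
    induction i using Int.induction_on with
    | zero => intro χ; simp
    | succ i ih =>
      intro χ
      rw [zpow_add_one, Equiv.Perm.mul_apply, ih, hcπ]
    | pred i ih =>
      intro χ
      rw [zpow_sub_one, Equiv.Perm.mul_apply, ih, hcinv]
  have key := sum_fixed (p := p) (Q := Subgroup.zpowers π) (Y := {χ // χ ∈ s}) hP
    (fun χ => c χ.1) (by
      rintro ⟨g, i, rfl⟩ χ
      exact hall i χ)
  rw [← Finset.sum_coe_sort s c]
  refine key.trans ?_
  refine Finset.sum_bij (fun χ _ => χ.1) ?_ ?_ ?_ ?_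
  · intro χ hχ
    refine Finset.mem_filter.2 ⟨χ.2, fun y => ?_⟩
    have h1 := (mem_fx _).1 hχ ⟨π, Subgroup.mem_zpowers π⟩
    exact congrFun (congrArg Subtype.val h1) y
  · intro a _ b _ hab
    exact Subtype.ext hab
  · intro χ hχ
    obtain ⟨h1, h2⟩ := Finset.mem_filter.1 hχ
    refine ⟨⟨χ, h1⟩, ?_, rfl⟩
    rw [mem_fx]
    have h3 : π ⟨χ, h1⟩ = ⟨χ, h1⟩ := Subtype.ext (funext h2)
    rintro ⟨g, i, rfl⟩
    change (π ^ i) ⟨χ, h1⟩ = ⟨χ, h1⟩
    exact Equiv.Perm.zpow_apply_eq_self_of_apply_eq_self h3 i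
  · intro χ _
    rfl

theorem prim_mod {z : ℂ} {k v : ℕ} (h : IsPrimitiveRoot z k) (hk : 0 < k) (h2 : z ^ v = z) :
    v ≡ 1 [MOD k] := by
  rcases Nat.eq_zero_or_pos v with rfl | hv
  · rw [pow_zero] at h2
    have h3 : k ∣ 1 := h.dvd_of_pow_eq_one 1 (by rw [pow_one]; exact h2.symm)
    rw [Nat.dvd_one.1 h3]
    exact Nat.modEq_one
  · have hz : z ≠ 0 := h.ne_zero hk.ne'
    have h3 : z ^ (v - 1) = 1 := by
      have h4 : z ^ (v - 1) * z = 1 * z := by
        rw [← pow_succ, Nat.sub_add_cancel hv, h2, one_mul]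
      exact mul_right_cancel₀ hz h4
    exact ((Nat.modEq_iff_dvd' hv).2 (h.dvd_of_pow_eq_one _ h3)).symm

/-- the automorphisms of `ℂ` act on the characters as power maps -/
theorem exists_pow {p : ℕ} (hp : p.Prime) {N : ℕ} (hN : N ≠ 0) (s : ℂ ≃+* ℂ)
    (hs : ∀ z : ℂ, z ^ (p * (N / p ^ N.factorization p)) = 1 → s z = z) :
    ∃ v k : ℕ, v.Coprime N ∧ v ^ (p ^ k) ≡ 1 [MOD N] ∧
      v ≡ 1 [MOD N / p ^ N.factorization p] ∧ ∀ z : ℂ, z ^ N = 1 → s z = z ^ v := by
  have hne : NeZero N := ⟨hN⟩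
  set a := N.factorization p with ha
  set m := N / p ^ a with hm
  have hNm : p ^ a * m = N := Nat.ordProj_mul_ordCompl_eq_self _ _
  have hm0 : m ≠ 0 := by
    rintro h
    rw [h, mul_zero] at hNm
    exact hN hNm.symm
  have hcop : Nat.Coprime p m := Nat.coprime_ordCompl hp hN
  have hζ := Complex.isPrimitiveRoot_exp N hN
  set ζ := Complex.exp (2 * Real.pi * Complex.I / N) with hζd
  have hsζ : IsPrimitiveRoot (s ζ) N := hζ.map_of_injective s.injective
  obtain ⟨v, -, hv, hv2⟩ := hζ.isPrimitiveRoot_iff.1 hsζ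
  have hall : ∀ z : ℂ, z ^ N = 1 → s z = z ^ v := by
    intro z hz
    obtain ⟨i, -, hi⟩ := hζ.eq_pow_of_pow_eq_one hz
    rw [← hi, map_pow, ← hv2, ← pow_mul, ← pow_mul, mul_comm]
  have hvm : v ≡ 1 [MOD m] := by
    have h1 : IsPrimitiveRoot (ζ ^ (p ^ a)) m :=
      hζ.pow (Nat.pos_of_ne_zero hN) hNm.symm
    have h2 : (ζ ^ (p ^ a)) ^ v = ζ ^ (p ^ a) := by
      rw [← hall _ (by rw [← pow_mul, mul_comm, pow_mul, hζ.pow_eq_one, one_pow])]
      apply hs
      rw [mul_comm p, pow_mul, h1.pow_eq_one, one_pow]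
    exact prim_mod h1 (Nat.pos_of_ne_zero hm0) h2
  refine ⟨v, a, hv, ?_, hvm, hall⟩
  rw [← hNm]
  refine (Nat.modEq_and_modEq_iff_modEq_mul (Nat.Coprime.pow_left a hcop)).1 ⟨?_, ?_⟩
  · rcases Nat.eq_zero_or_pos a with h0 | h0
    · rw [h0, pow_zero]
      exact Nat.modEq_one
    · have h1 : IsPrimitiveRoot (ζ ^ (p ^ (a - 1))) (p * m) := by
        refine hζ.pow (Nat.pos_of_ne_zero hN) ?_
        rw [← hNm, ← mul_assoc, ← pow_succ]
        congr 2
        omega
      have h2 : (ζ ^ (p ^ (a - 1))) ^ v = ζ ^ (p ^ (a - 1)) := by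
        rw [← hall _ (by rw [← pow_mul, mul_comm, pow_mul, hζ.pow_eq_one, one_pow])]
        exact hs _ h1.pow_eq_one
      have h3 : v ≡ 1 [MOD p * m] :=
        prim_mod h1 (Nat.mul_pos hp.pos (Nat.pos_of_ne_zero hm0)) h2
      have h4 : v ≡ 1 [MOD p] := h3.of_mul_right m
      have h5 : (p : ℤ) ∣ (v : ℤ) - 1 := by
        have := (Nat.modEq_iff_dvd.1 h4.symm)
        simpa using this
      have h6 := dvd_sub_pow_of_dvd_sub (R := ℤ) (p := p) h5 a
      rw [one_pow] at h6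
      refine Nat.ModEq.symm (Nat.modEq_iff_dvd.2 ?_)
      push_cast
      exact (pow_dvd_pow (p : ℤ) (Nat.le_succ a)).trans h6
  · have := hvm.pow (p ^ a)
    rwa [one_pow] at this

end

end Pool.Agent.R703.FS
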