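import Pool.Agent.R703.FS.Fix

/-!
# Sums of Frobenius–Schur indicators weighted by central characters and a value of the character
-/

set_option autoImplicit false
set_option linter.unusedSectionVars false
set_option linter.unusedVariables false

open scoped Classical
open Finset

noncomputable section

namespace Pool.Agent.R703.FS

open Pool.Agent.Y63.AWC (IsIrreducibleCharacter)
open Pool.Agent.Y63.NV
open Pool.Agent.Y930.NV (Cf ind mk_out Cf_out Cf_expand ind_out om om_sum om_int irr_Cf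
  R centralValue_eq redC_of redC_mul redC_add redC_sum redC_intCast int_intCast ind_cast Cf_ind irr_one_ne om_ind
  Tp Tp_eq)
open Pool.Agent.Helper884.IC (Irr mem_Irr expand B_irr B IsIrrChar IsClass)
open Pool.Agent.R721.CD (IsRepChar mult_nat_rep expand_at)

section

variable {J : Type} [Group J] [Fintype J]

/-- a central element of the group algebra acts on a character by its central character -/
theorem om_val {χ : J → ℂ} (h : IsIrreducibleCharacter χ) {f : J → ℂ} (hf : Cf f) (y : J) :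
    om χ f * χ y = ∑ g : J, f g * χ (g * y) := by
  obtain ⟨V, _, _, _, ρ, hr, rfl⟩ := h
  have h1 := Tp_eq ρ hr f hf
  have h2 : LinearMap.trace ℂ V (Tp ρ f * ρ y) = ∑ g : J, f g * ρ.character (g * y) := by
    unfold Tp
    rw [Finset.sum_mul, map_sum]
    refine Finset.sum_congr rfl fun g _ => ?_
    rw [smul_mul_assoc, map_smul, smul_eq_mul, ← map_mul]
    rfl
  rw [← h2, h1, smul_mul_assoc, one_mul, map_smul, smul_eq_mul]
  rfl

/-- the number of `n`-th roots -/
def rt (n : ℕ) (u : J) : ℂ := ∑ g : J, if g ^ n = u then 1 else 0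

theorem rt_class (n : ℕ) : Cf (rt n : J → ℂ) := by
  intro g x
  unfold rt
  rw [← Equiv.sum_comp (MulAut.conj g).toEquiv (fun h => if h ^ n = g * x * g⁻¹ then (1 : ℂ) else 0)]
  refine Finset.sum_congr rfl fun h _ => ?_
  have e : ((MulAut.conj g).toEquiv h) ^ n = g * x * g⁻¹ ↔ h ^ n = x := by
    change (g * h * g⁻¹) ^ n = _ ↔ _
    rw [conj_pow]
    constructor
    · intro hh
      exact mul_left_cancel (mul_right_cancel hh)
    · intro hh
      rw [hh]
  simp only [e]

theorem rt_expand (n : ℕ) (u : J) : rt n u = ∑ χ ∈ Irr J, nuC n χ * χ u := by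
  have hcl : IsClass (rt n : J → ℂ) := by
    intro g y
    exact rt_class (J := J) n y g
  have h2 := congrFun (expand (rt n : J → ℂ) hcl) u
  rw [Finset.sum_apply] at h2
  rw [h2]
  refine Finset.sum_congr rfl fun χ _ => ?_
  rw [Pi.smul_apply, smul_eq_mul]
  congr 1
  unfold B nuC
  congr 1
  unfold rt
  have e1 : ∀ x : J, (∑ g : J, if g ^ n = x then (1 : ℂ) else 0) * χ x⁻¹ =
      ∑ g : J, if g ^ n = x then χ x⁻¹ else 0 := by
    intro x
    rw [Finset.sum_mul]
    refine Finset.sum_congr rfl fun g _ => ?_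
    split_ifs <;> simp
  rw [Finset.sum_congr rfl fun x _ => e1 x, Finset.sum_comm]
  have e2 : ∀ g : J, (∑ x : J, if g ^ n = x then χ x⁻¹ else 0) = χ (g ^ n)⁻¹ := by
    intro g
    rw [Finset.sum_ite_eq]
    simp
  rw [Finset.sum_congr rfl fun g _ => e2 g, ← Equiv.sum_comp (Equiv.inv J)]
  refine Finset.sum_congr rfl fun g _ => ?_
  congr 1
  simp

/-- the key identity over the complex numbers -/
theorem key_Cy (n : ℕ) {f : J → ℂ} (hf : Cf f) (y : J) :
    ∑ χ ∈ Irr J, om χ f * (χ y * nuC n χ) = ∑ g : J, f (g ^ n * y⁻¹) := by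
  have h1 : ∀ χ ∈ Irr J, om χ f * (χ y * nuC n χ) = ∑ h : J, f h * (nuC n χ * χ (h * y)) := by
    intro χ hχ
    rw [← mul_assoc, om_val (mem_Irr.1 hχ) hf y, Finset.sum_mul]
    refine Finset.sum_congr rfl fun g _ => ?_
    ring
  rw [Finset.sum_congr rfl h1, Finset.sum_comm]
  have h2 : ∀ h : J, ∑ χ ∈ Irr J, f h * (nuC n χ * χ (h * y)) = f h * rt n (h * y) := by
    intro h
    rw [← Finset.mul_sum, ← rt_expand]
  rw [Finset.sum_congr rfl fun h _ => h2 h]
  unfold rt
  have h3 : ∀ h : J, f h * (∑ g : J, if g ^ n = h * y then (1 : ℂ) else 0) =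
      ∑ g : J, if h = g ^ n * y⁻¹ then f h else 0 := by
    intro h
    rw [Finset.mul_sum]
    refine Finset.sum_congr rfl fun g _ => ?_
    have e : g ^ n = h * y ↔ h = g ^ n * y⁻¹ := by
      rw [eq_mul_inv_iff_mul_eq]
      exact eq_comm
    simp only [e]
    split_ifs <;> simp
  rw [Finset.sum_congr rfl fun h _ => h3 h, Finset.sum_comm]
  refine Finset.sum_congr rfl fun g _ => ?_
  rw [Finset.sum_ite_eq']
  simp

theorem val_int {χ : J → ℂ} (h : IsIrreducibleCharacter χ) (y : J) : IsIntegral ℤ (χ y) := by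
  exact Pool.Agent.R721.CD.char_integral h y

/-- the key identity after reduction -/
theorem key_Fy {F : Type} [Field F] (red : integralClosure ℤ ℂ →+* F) {n : ℕ} (hn : 0 < n)
    {f : J → F} (hf : IsClassFun f) (y : J) :
    ∑ χ ∈ Irr J, centralValue red χ f * redC red (χ y * nuC n χ) = ∑ g : J, f (g ^ n * y⁻¹) := by
  have hint : ∀ χ ∈ Irr J, IsIntegral ℤ (χ y * nuC n χ) := fun χ hχ =>
    (val_int (mem_Irr.1 hχ) y).mul (nuC_int hn (irr_rep (mem_Irr.1 hχ)))
  have h1 : ∀ χ ∈ Irr J, centralValue red χ f * redC red (χ y * nuC n χ) =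
      ∑ C : ConjClasses J, f C.out * redC red (om χ (ind ℂ C) * (χ y * nuC n χ)) := by
    intro χ hχ
    rw [centralValue_eq red (mem_Irr.1 hχ), Finset.sum_mul]
    refine Finset.sum_congr (Finset.ext fun _ => by simp) fun C _ => ?_
    rw [mul_assoc]
    congr 1
    unfold R
    have hom : IsIntegral ℤ (om χ (ind ℂ C)) := by
      rw [← ind_cast]
      exact om_int (mem_Irr.1 hχ) (Cf_ind ℤ C)
    rw [ind_cast, redC_mul red hom (hint χ hχ)]
  rw [Finset.sum_congr rfl h1, Finset.sum_comm]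
  have h2 : ∀ C : ConjClasses J, ∑ χ ∈ Irr J, f C.out * redC red (om χ (ind ℂ C) * (χ y * nuC n χ)) =
      ∑ g : J, f C.out * ind F C (g ^ n * y⁻¹) := by
    intro C
    rw [← Finset.mul_sum, ← Finset.mul_sum]
    congr 1
    rw [← redC_sum red]
    · rw [key_Cy n (Cf_ind ℂ C)]
      have h3 : ∑ g : J, ind ℂ C (g ^ n * y⁻¹) = ((∑ g : J, ind ℤ C (g ^ n * y⁻¹) : ℤ) : ℂ) := by
        push_cast
        refine Finset.sum_congr rfl fun g _ => ?_
        exact (congrFun (ind_cast C) _).symm
      rw [h3, redC_intCast]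
      push_cast
      refine Finset.sum_congr rfl fun g _ => ?_
      exact Pool.Agent.R674.KB.ind_int F C _
    · intro χ hχ
      have hom : IsIntegral ℤ (om χ (ind ℂ C)) := by
        rw [← ind_cast]
        exact om_int (mem_Irr.1 hχ) (Cf_ind ℤ C)
      exact hom.mul (hint χ hχ)
  rw [Finset.sum_congr rfl fun C _ => h2 C, Finset.sum_comm]
  refine Finset.sum_congr rfl fun g _ => ?_
  refine ((Cf_expand hf _).trans ?_).symm
  exact Finset.sum_congr (Finset.ext fun _ => by simp) fun C _ => rfl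

end

open Pool.Agent.Y171.NV (CFm)

section loc

variable {p : ℕ} [Fact p.Prime] {F : Type} [Field F] [CharP F p] {G : Type} [Group G] [Fintype G]

/-- the block version -/
theorem block_Fy (red : integralClosure ℤ ℂ →+* F) {n : ℕ} (hn : 0 < n) {Q N : Subgroup G}
    (hQ : IsPGroup p Q) (hN : N = Subgroup.normalizer (Q : Set G)) {B : (G → F) → F}
    (hB : IsBlock B) (y : N) (hy : ∀ q ∈ Q, q * (y : G) = (y : G) * q) :
    ∑ χ ∈ (Irr G).filter (fun χ => ∀ f : G → F, IsClassFun f → centralValue red χ f = B f),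
        redC red (χ y * nuC n χ) =
      ∑ ψ ∈ (Irr N).filter (fun ψ => ∀ f : G → F, IsClassFun f →
        centralValue red ψ (fun x : N => f x) = B f), redC red (ψ y * nuC n ψ) := by
  refine indep (Irr G) (fun χ => redC red (χ y * nuC n χ)) (fun χ => centralValue red χ)
    (fun χ hχ => Pool.Agent.Y930.NV.cvh F red G χ (mem_Irr.1 hχ)) (Irr N)
    (fun ψ => redC red (ψ y * nuC n ψ)) (fun ψ f => centralValue red ψ (fun x : N => f x))
    (fun ψ hψ => Pool.Agent.R674.KB.blk_up (p := p) hQ hN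
      (Pool.Agent.Y930.NV.cvh F red N ψ (mem_Irr.1 hψ))) ?_ hB
  intro f hf
  have hQN : Q ≤ N := hN ▸ Subgroup.le_normalizer
  have hCN : Subgroup.centralizer (Q : Set G) ≤ N := by
    rw [hN]
    exact Subgroup.centralizer_le_normalizer _
  have hfN : IsClassFun (fun x : N => f x) := fun g x => hf g x
  rw [key_Fy red hn hf, key_Fy (J := N) red hn hfN,
    sum_local (p := p) hQ hQN hCN (fun g : G => f (g ^ n * (y : G)⁻¹))]
  · rfl
  · intro q hq g
    show f _ = _
    have : (q * g * q⁻¹) ^ n * (y : G)⁻¹ = q * (g ^ n * (y : G)⁻¹) * q⁻¹ := by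
      have h2 : q⁻¹ * (y : G)⁻¹ = (y : G)⁻¹ * q⁻¹ := by
        rw [← mul_inv_rev, ← mul_inv_rev, hy q hq]
      rw [conj_pow, mul_assoc, h2]
      group
    rw [this]
    exact hf q _

end loc

end Pool.Agent.R703.FS
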