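import Pool.Agent.H254R3.IN.Compare
import Pool.Agent.Y63.NV.Stm3
import Pool.Agent.R703.FS.IdY

/-!
# Defect classes: fusion, class sizes, and the congruence for the values of height zero characters

(The lemma `fus` is `fusion` of `Pool.Agent.H254R3.IN.Compare` without the condition of `p`-regularity.)
-/

set_option autoImplicit false
set_option linter.unusedSectionVars false
set_option linter.unusedVariables false

open scoped Classical
open Finset

noncomputable section

namespace Pool.Agent.R703.FS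

open Pool.Agent.Y63.AWC (IsIrreducibleCharacter)
open Pool.Agent.Y63.NV
open Pool.Agent.Y930.NV (Cf ind mk_out Cf_out Cf_expand ind_out om om_sum om_int irr_Cf
  R centralValue_eq redC_of redC_mul redC_add redC_sum redC_intCast int_intCast ind_cast Cf_ind irr_one_ne om_ind)
open Pool.Agent.Helper884.IC (Irr mem_Irr)
open Pool.Agent.H254R3.IN (NN DD le_NN kk kk_mul kk_congr kk_modEq le_centralizer card_class_mul
  card_class_pos mem_cent_DD)

section

variable {G : Type} [Group G] [Fintype G] {p : ℕ} [hp : Fact p.Prime] {D : Subgroup G}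

theorem fus (hD : IsPGroup p D) {y z : NN D} (hy : (y : G) ∈ Subgroup.centralizer (D : Set G))
    (hz : (z : G) ∈ Subgroup.centralizer (D : Set G))
    (h : IsConj (y : G) (z : G)) (hk : ¬ p ∣ kk D (y : G)) : IsConj y z := by
  obtain ⟨c, hc⟩ := isConj_iff.mp h
  set Z := Subgroup.centralizer ({(z : G)} : Set G) with hZ
  have hle1 : D ≤ Z := le_centralizer hz
  set D2 : Subgroup G := D.map (MulAut.conj c).toMonoidHom with hD2
  have hle2 : D2 ≤ Z := by
    intro x hx
    obtain ⟨d, hd, rfl⟩ := Subgroup.mem_map.mp hx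
    rw [hZ, Subgroup.mem_centralizer_iff]
    intro w hw
    rw [Set.mem_singleton_iff.mp hw, ← hc]
    have h1 := Subgroup.mem_centralizer_iff.mp hy d hd
    simp only [MulEquiv.toMonoidHom_eq_coe, MonoidHom.coe_coe, MulAut.conj_apply]
    have e1 : c * (y : G) * c⁻¹ * (c * d * c⁻¹) = c * ((y : G) * d) * c⁻¹ := by group
    have e2 : c * d * c⁻¹ * (c * (y : G) * c⁻¹) = c * (d * (y : G)) * c⁻¹ := by group
    rw [e1, e2, h1]
  have hcardD2 : Nat.card D2 = Nat.card D :=
    (Nat.card_congr (D.equivMapOfInjective _ (MulAut.conj c).injective).toEquiv).symm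
  have hkz : Nat.card Z = kk D (y : G) * Nat.card D := by
    rw [kk_congr D h, kk_mul hz]
  have hDpos : 0 < Nat.card D := Nat.card_pos
  have hidx : ∀ E : Subgroup G, E ≤ Z → Nat.card E = Nat.card D →
      (E.subgroupOf Z).index = kk D (y : G) := by
    intro E hE hEc
    have h1 := Subgroup.card_mul_index (E.subgroupOf Z)
    rw [Nat.card_congr (Subgroup.subgroupOfEquivOfLe hE).toEquiv, hEc, hkz, mul_comm] at h1
    exact Nat.eq_of_mul_eq_mul_right hDpos h1
  have hp1 : IsPGroup p (D.subgroupOf Z) :=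
    hD.of_equiv (Subgroup.subgroupOfEquivOfLe hle1).symm
  have hp2 : IsPGroup p (D2.subgroupOf Z) :=
    (hD.map (MulAut.conj c).toMonoidHom).of_equiv (Subgroup.subgroupOfEquivOfLe hle2).symm
  let P1 : Sylow p Z := hp1.toSylow (by rw [hidx D hle1 rfl]; exact hk)
  let P2 : Sylow p Z := hp2.toSylow (by rw [hidx D2 hle2 hcardD2]; exact hk)
  obtain ⟨g, hg⟩ := MulAction.exists_smul_eq Z P2 P1
  have hmem : ∀ x : Z, x ∈ D2.subgroupOf Z ↔ g * x * g⁻¹ ∈ D.subgroupOf Z := by
    intro x
    have h1 : (g • P2 : Sylow p Z) = P1 := hg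
    have h2 : ((g • P2 : Sylow p Z) : Subgroup Z) = D.subgroupOf Z := by
      rw [h1]
      exact IsPGroup.toSylow_coe _ _
    have h3 : ((P2 : Sylow p Z) : Subgroup Z) = D2.subgroupOf Z := IsPGroup.toSylow_coe _ _
    rw [← h2, ← h3, Sylow.coe_subgroup_smul, ← MulAut.conj_apply]
    exact (Subgroup.smul_mem_pointwise_smul_iff (a := MulAut.conj g)).symm
  have hn : (g : G) * c ∈ NN D := by
    rw [Subgroup.mem_normalizer_iff]
    intro d
    constructor
    · intro hd
      have h1 : c * d * c⁻¹ ∈ D2 := Subgroup.mem_map.mpr ⟨d, hd, rfl⟩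
      have h2 := (hmem ⟨c * d * c⁻¹, hle2 h1⟩).mp (by
        rw [Subgroup.mem_subgroupOf]; exact h1)
      rw [Subgroup.mem_subgroupOf] at h2
      have e : (g : G) * c * d * ((g : G) * c)⁻¹ = (g : G) * (c * d * c⁻¹) * (g : G)⁻¹ := by group
      rw [e]
      exact h2
    · intro hd
      have e : (g : G) * c * d * ((g : G) * c)⁻¹ = (g : G) * (c * d * c⁻¹) * (g : G)⁻¹ := by group
      rw [e] at hd
      have hZ' : c * d * c⁻¹ ∈ Z := by
        have h3 := hle1 hd
        have h4 := Z.mul_mem (Z.mul_mem (Z.inv_mem g.2) h3) g.2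
        have e3 : (g : G)⁻¹ * ((g : G) * (c * d * c⁻¹) * (g : G)⁻¹) * (g : G) = c * d * c⁻¹ := by
          group
        rwa [e3] at h4
      have h2 := (hmem ⟨c * d * c⁻¹, hZ'⟩).mpr (by
        rw [Subgroup.mem_subgroupOf]; exact hd)
      rw [Subgroup.mem_subgroupOf] at h2
      obtain ⟨d', hd', he⟩ := Subgroup.mem_map.mp h2
      have : d' = d := (MulAut.conj c).injective he
      rw [← this]
      exact hd'
  refine isConj_iff.mpr ⟨⟨(g : G) * c, hn⟩, Subtype.ext ?_⟩
  have hgz : (z : G) * (g : G) = (g : G) * z := Subgroup.mem_centralizer_iff.mp g.2 (z : G) rfl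
  change (g : G) * c * (y : G) * ((g : G) * c)⁻¹ = z
  have e : (g : G) * c * (y : G) * ((g : G) * c)⁻¹ = (g : G) * (c * y * c⁻¹) * (g : G)⁻¹ := by group
  rw [e, hc, ← hgz]
  group

end

section val

variable {J : Type} [Group J] [Fintype J] {p : ℕ} [hp : Fact p.Prime] {F : Type} [Field F]
  [CharP F p] (red : integralClosure ℤ ℂ →+* F)

theorem redC_nat (n : ℕ) : redC red (n : ℂ) = (n : F) := by
  have := redC_intCast red (n : ℤ)
  push_cast at this
  exact this

theorem nat_ne {n : ℕ} (h : ¬ p ∣ n) : (n : F) ≠ 0 := by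
  intro h0
  exact h ((CharP.cast_eq_zero_iff F p n).1 h0)

/-- the central character and the values of a character -/
theorem lamA {χ : J → ℂ} (h : IsIrreducibleCharacter χ) (x : J) {c : ℕ} (hc : c ≠ 0) {l : F}
    (hl : l ≠ 0) {o : ℂ} (ho : IsIntegral ℤ o) (hol : redC red o = l)
    (hrel : o * χ 1 = c * χ x) {d : ℕ} (hd : χ 1 = d) :
    p ^ c.factorization p ∣ d ∧
      l * ((d / p ^ c.factorization p : ℕ) : F) =
        ((c / p ^ c.factorization p : ℕ) : F) * redC red (χ x) := by
  have hpp : p.Prime := hp.out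
  have hd0 : d ≠ 0 := by
    rintro rfl
    exact irr_one_ne h (by rw [hd]; simp)
  set e := c.factorization p with he
  set m := c / p ^ e with hm
  have hcm : p ^ e * m = c := Nat.ordProj_mul_ordCompl_eq_self _ _
  set f := d.factorization p with hf
  set d' := d / p ^ f with hd'
  have hdm : p ^ f * d' = d := Nat.ordProj_mul_ordCompl_eq_self _ _
  have hd'p : ¬ p ∣ d' := Nat.not_dvd_ordCompl hpp hd0
  have hpC : (p : ℂ) ≠ 0 := by exact_mod_cast hpp.ne_zero
  have hint := val_int h x
  have hnat : ∀ k : ℕ, IsIntegral ℤ (k : ℂ) := fun k => by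
    have := int_intCast (k : ℤ)
    push_cast at this
    exact this
  have hfe : e ≤ f := by
    by_contra hlt
    rw [not_le] at hlt
    have h1 : o * (d' : ℂ) = ((p ^ (e - f) * m : ℕ) : ℂ) * χ x := by
      have h2 : (p : ℂ) ^ f * (o * d') = (p : ℂ) ^ f * (((p ^ (e - f) * m : ℕ) : ℂ) * χ x) := by
        have h3 : (p : ℂ) ^ f * d' = χ 1 := by
          rw [hd, ← hdm]; push_cast; ring
        have h4 : (p : ℂ) ^ f * ((p ^ (e - f) * m : ℕ) : ℂ) = c := by
          rw [← hcm]; push_cast
          rw [← mul_assoc, ← pow_add]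
          congr 2
          omega
        calc (p : ℂ) ^ f * (o * d') = o * ((p : ℂ) ^ f * d') := by ring
          _ = o * χ 1 := by rw [h3]
          _ = c * χ x := hrel
          _ = ((p : ℂ) ^ f * ((p ^ (e - f) * m : ℕ) : ℂ)) * χ x := by rw [h4]
          _ = _ := by ring
      exact mul_left_cancel₀ (pow_ne_zero _ hpC) h2
    have h2 := congrArg (redC red) h1
    rw [redC_mul red ho (hnat _), redC_mul red (hnat _) hint, redC_nat, redC_nat, hol] at h2
    have h3 : ((p ^ (e - f) * m : ℕ) : F) = 0 := by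
      rw [CharP.cast_eq_zero_iff F p]
      exact Dvd.dvd.mul_right (dvd_pow_self p (by omega)) m
    rw [h3, zero_mul] at h2
    exact (mul_ne_zero hl (nat_ne (p := p) hd'p)) h2
  have hdvd : p ^ e ∣ d := (pow_dvd_pow p hfe).trans (Nat.ordProj_dvd _ _)
  refine ⟨hdvd, ?_⟩
  obtain ⟨k, hk⟩ := hdvd
  have hdk : d / p ^ e = k := by
    rw [hk, Nat.mul_div_cancel_left _ (pow_pos hpp.pos e)]
  have h1 : o * (k : ℂ) = (m : ℂ) * χ x := by
    have h2 : (p : ℂ) ^ e * (o * k) = (p : ℂ) ^ e * ((m : ℂ) * χ x) := by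
      have h3 : (p : ℂ) ^ e * k = χ 1 := by
        rw [hd, hk]; push_cast; ring
      have h4 : (p : ℂ) ^ e * (m : ℂ) = c := by
        rw [← hcm]; push_cast; ring
      calc (p : ℂ) ^ e * (o * k) = o * ((p : ℂ) ^ e * k) := by ring
        _ = o * χ 1 := by rw [h3]
        _ = c * χ x := hrel
        _ = ((p : ℂ) ^ e * (m : ℂ)) * χ x := by rw [h4]
        _ = _ := by ring
    exact mul_left_cancel₀ (pow_ne_zero _ hpC) h2
  have h2 := congrArg (redC red) h1
  rw [redC_mul red ho (hnat _), redC_mul red (hnat _) hint, redC_nat, redC_nat, hol] at h2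
  rw [hdk]
  exact h2

/-- the value of the central character at a class sum -/
theorem cv_class {χ : J → ℂ} (h : IsIrreducibleCharacter χ) (x : J) :
    ∃ o : ℂ, IsIntegral ℤ o ∧
      redC red o = centralValue red χ (fun y => if IsConj x y then 1 else 0) ∧
      o * χ 1 = (Nat.card {y : J // IsConj x y} : ℂ) * χ x := by
  refine ⟨om χ (ind ℂ (ConjClasses.mk x)), ?_, ?_, ?_⟩
  · rw [← ind_cast]
    exact om_int h (Cf_ind ℤ _)
  · rw [centralValue_eq red h]
    symm
    refine (Finset.sum_eq_single (ConjClasses.mk x) ?_ ?_).trans ?_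
    · intro C _ hC
      have e : (if IsConj x C.out then (1 : F) else 0) = 0 := by
        rw [if_neg]
        intro h1
        rw [← ConjClasses.mk_eq_mk_iff_isConj, mk_out] at h1
        exact hC h1.symm
      rw [e, zero_mul]
    · intro h1
      have hu : ∀ (inst : Fintype (ConjClasses J)) (c : ConjClasses J),
          c ∈ @Finset.univ _ inst := fun inst c => @Finset.mem_univ _ inst c
      exact absurd (hu _ _) h1
    · have e : (if IsConj x (ConjClasses.mk x).out then (1 : F) else 0) = 1 := by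
        rw [if_pos]
        rw [← ConjClasses.mk_eq_mk_iff_isConj, mk_out]
      rw [e, one_mul]
      unfold R
      rw [ind_cast]
  · rw [om_ind χ (irr_Cf h), div_mul_cancel₀ _ (irr_one_ne h), Cf_out (irr_Cf h) rfl]
    congr 2

end val

end Pool.Agent.R703.FS
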