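import Pool.Agent.R703.FS.MainH
import Pool.Agent.R703.FS.DefsG

/-!
# Frobenius–Schur congruences for characters fixed by a Galois automorphism of `p`-power order
-/

set_option autoImplicit false
set_option linter.unusedSectionVars false
set_option linter.unusedVariables false

open scoped Classical
open Finset

noncomputable section

namespace Pool.Agent.R703.FS

open Pool.Agent.Y63.AWC (IsIrreducibleCharacter)
open Pool.Agent.Y63.NV
open Pool.Agent.Y930.NV (Cf om irr_one_ne redC_intCast redC_mul int_intCast)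
open Pool.Agent.Helper884.IC (Irr mem_Irr)
open Pool.Agent.R721.CD (IsRepChar)
open Pool.Agent.R677.FV (exists_sigma galois_value)
open Pool.Agent.R663.GA (irr_pow cv_pow cv_pp)
open Pool.Agent.H254R3.IN (NN DD le_NN kk kk_mul kk_congr kk_modEq le_centralizer card_class_mul
  card_class_pos mem_cent_DD card_DD pgroup_DD)

/-- the automorphisms of `ℂ` act on the characters as power maps -/
theorem exists_powG {p : ℕ} {N : ℕ} (hN : N ≠ 0) (s : ℂ ≃+* ℂ) (hs : PPowerOrder p N s) :
    ∃ v k : ℕ, v.Coprime N ∧ v ^ (p ^ k) ≡ 1 [MOD N] ∧ ∀ z : ℂ, z ^ N = 1 → s z = z ^ v := by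
  have hne : NeZero N := ⟨hN⟩
  have hζ := Complex.isPrimitiveRoot_exp N hN
  set ζ := Complex.exp (2 * Real.pi * Complex.I / N) with hζd
  have hsζ : IsPrimitiveRoot (s ζ) N := hζ.map_of_injective s.injective
  obtain ⟨v, -, hv, hv2⟩ := hζ.isPrimitiveRoot_iff.1 hsζ
  have hall : ∀ z : ℂ, z ^ N = 1 → s z = z ^ v := by
    intro z hz
    obtain ⟨i, -, hi⟩ := hζ.eq_pow_of_pow_eq_one hz
    rw [← hi, map_pow, ← hv2, ← pow_mul, ← pow_mul, mul_comm]
  obtain ⟨k, hk⟩ := hs
  have hit : ∀ (j : ℕ) (z : ℂ), z ^ N = 1 → (fun y => s y)^[j] z = z ^ (v ^ j) := by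
    intro j
    induction j with
    | zero => intro z _; simp
    | succ j ih =>
      intro z hz
      rw [Function.iterate_succ_apply', ih z hz]
      show s (z ^ (v ^ j)) = _
      rw [hall (z ^ (v ^ j)) (by rw [← pow_mul, mul_comm, pow_mul, hz, one_pow]), ← pow_mul,
        ← pow_succ]
  refine ⟨v, k, hv, ?_, hall⟩
  have h1 := hk ζ hζ.pow_eq_one
  rw [hit _ ζ hζ.pow_eq_one] at h1
  exact prim_mod hζ (Nat.pos_of_ne_zero hN) h1

/-- **The sums over the characters of a group and of a local subgroup.** -/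
theorem main_groupG {p : ℕ} [Fact p.Prime] {G : Type} [Group G] [Finite G] {Q H : Subgroup G}
    (hQ : IsPGroup p Q) (hQH : Q ≤ H) (hC : Subgroup.centralizer (Q : Set G) ≤ H) {n : ℕ}
    (hn : 0 < n) (s : ℂ ≃+* ℂ) (hs : PPowerOrder p (Nat.card G) s) :
    ∃ m : ℤ, fsSum p n (fun χ : G → ℂ => FixedBy s χ) -
      fsSum p n (fun ψ : H → ℂ => FixedBy s ψ) = p * m := by
  have : Fintype G := Fintype.ofFinite G
  have hp : p.Prime := Fact.out
  obtain ⟨v, k, hv, hk, hsv⟩ := exists_powG Nat.card_pos.ne' s hs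
  have hHG : Nat.card H ∣ Nat.card G := Subgroup.card_subgroup_dvd_card H
  rw [fsSum_eq hn, fsSum_eq hn]
  apply diff_of_modEq
  push_cast
  rw [drop hn, drop hn]
  have e1 := fixed (J := G) (p := p) (F := ZMod p) hn (fun _ => True) hv hk s hsv
    (fun _ _ _ => trivial)
  have e2 := fixed (J := H) (p := p) (F := ZMod p) hn (fun _ => True)
    (Nat.Coprime.coprime_dvd_right hHG hv) (hk.of_dvd hHG) s
    (fun z hz => hsv z (by
      obtain ⟨c, hc⟩ := hHG
      rw [hc, pow_mul, hz, one_pow])) (fun _ _ _ => trivial)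
  simp only [and_true, Finset.filter_true] at e1 e2
  rw [e1, e2]
  have h1 := cnt (J := G) hn
  have h2 := cnt (J := H) hn
  rw [← Int.cast_sum, ← Int.cast_sum, h1, h2]
  have h3 := sum_local (p := p) (F := ZMod p) hQ hQH hC (fun g => if g ^ n = 1 then 1 else 0) (by
    intro q _ g
    have : (q * g * q⁻¹) ^ n = 1 ↔ g ^ n = 1 := by
      rw [conj_pow]
      constructor
      · intro h
        have h2 : g ^ n = q⁻¹ * (q * g ^ n * q⁻¹) * q := by group
        rw [h2, h]
        group
      · intro h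
        rw [h]
        group
    simp only [this])
  rw [Finset.sum_ite, Finset.sum_ite, Finset.sum_const_zero, Finset.sum_const_zero, add_zero,
    add_zero, Finset.sum_const, Finset.sum_const, nsmul_eq_mul, nsmul_eq_mul, mul_one, mul_one] at h3
  have e3 : (univ.filter fun x : H => (x : G) ^ n = 1) = univ.filter fun x : H => x ^ n = 1 := by
    refine Finset.filter_congr fun x _ => ?_
    rw [← SubgroupClass.coe_pow]
    exact OneMemClass.coe_eq_one
  rw [e3] at h3
  push_cast
  convert h3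

section stab

variable {p : ℕ} [hp : Fact p.Prime] {F : Type} [Field F] [CharP F p]
  (red : integralClosure ℤ ℂ →+* F) {G : Type} [Group G]

theorem pow_class {J : Type} [Group J] {f : J → F} (hf : IsClassFun f) (u : ℕ) :
    IsClassFun (fun g => f (g ^ u)) := by
  intro g x
  show f ((g * x * g⁻¹) ^ u) = f (x ^ u)
  rw [conj_pow]
  exact hf g _

theorem inv_pow_card {J : Type} [Group J] {v k N : ℕ} (hN : Nat.card J ∣ N)
    (hk : v ^ (p ^ k) ≡ 1 [MOD N]) (x : J) : (x ^ v) ^ (v ^ (p ^ k - 1)) = x := by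
  have h1 : v * v ^ (p ^ k - 1) = v ^ (p ^ k) := by
    rw [← pow_succ']
    congr 1
    have : 0 < p ^ k := pow_pos hp.out.pos k
    omega
  rw [← pow_mul, h1]
  have h2 : x ^ (v ^ p ^ k) = x ^ 1 := by
    rw [pow_eq_pow_iff_modEq]
    exact hk.of_dvd ((orderOf_dvd_natCard x).trans hN)
  rw [h2, pow_one]

/-- a stable block -/
theorem stabB [Finite G] {B : (G → F) → F} {N : Subgroup G} {ψ : N → ℂ}
    (h : IsIrreducibleCharacter ψ) {v k : ℕ} (hv : v.Coprime (Nat.card G))
    (hk : v ^ (p ^ k) ≡ 1 [MOD Nat.card G])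
    (hst : ∀ f : G → F, IsClassFun f → B (fun g => f (g ^ v)) = B f)
    (hψ : InInduced red B ψ) : InInduced red B (fun y => ψ (y ^ v)) := by
  have : Fintype G := Fintype.ofFinite G
  intro f hf
  have hNG : Nat.card N ∣ Nat.card G := Subgroup.card_subgroup_dvd_card N
  have hv' : v.Coprime (Nat.card N) := Nat.Coprime.coprime_dvd_right hNG hv
  have hf' := pow_class hf (v ^ (p ^ k - 1))
  have h1 := cv_pp red h (f := fun x : N => f ((x : G) ^ (v ^ (p ^ k - 1)))) (fun g x => hf' g x)
    hv'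
  have h2 : (fun x : N => (fun x : N => f ((x : G) ^ (v ^ (p ^ k - 1)))) (x ^ v)) =
      fun x : N => f x := by
    funext x
    show f (((x ^ v : N) : G) ^ (v ^ (p ^ k - 1))) = f x
    rw [SubgroupClass.coe_pow, inv_pow_card (p := p) (dvd_refl _) hk]
  rw [h2] at h1
  rw [h1, hψ _ hf', ← hst _ hf']
  congr 1
  funext g
  show f ((g ^ v) ^ (v ^ (p ^ k - 1))) = f g
  rw [inv_pow_card (p := p) (dvd_refl _) hk]

theorem stabG [Finite G] {B : (G → F) → F} {χ : G → ℂ}
    (h : IsIrreducibleCharacter χ) {v k : ℕ} (hv : v.Coprime (Nat.card G))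
    (hk : v ^ (p ^ k) ≡ 1 [MOD Nat.card G])
    (hst : ∀ f : G → F, IsClassFun f → B (fun g => f (g ^ v)) = B f)
    (hχ : InBlock red B χ) : InBlock red B (fun y => χ (y ^ v)) := by
  have : Fintype G := Fintype.ofFinite G
  intro f hf
  have hf' := pow_class hf (v ^ (p ^ k - 1))
  have h1 := cv_pp red h (f := fun x : G => f (x ^ (v ^ (p ^ k - 1)))) (fun g x => hf' g x) hv
  have h2 : (fun x : G => (fun x : G => f (x ^ (v ^ (p ^ k - 1)))) (x ^ v)) = f := by
    funext x
    show f ((x ^ v) ^ (v ^ (p ^ k - 1))) = f x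
    rw [inv_pow_card (p := p) (dvd_refl _) hk]
  rw [h2] at h1
  rw [h1, hχ _ hf', ← hst _ hf']
  congr 1

/-- a block with a fixed character is stable -/
theorem fixB [Finite G] {B : (G → F) → F} {N : Subgroup G} {ψ : N → ℂ}
    (h : IsIrreducibleCharacter ψ) {v : ℕ} (hv : v.Coprime (Nat.card G))
    (hfix : (fun y => ψ (y ^ v)) = ψ) (hψ : InInduced red B ψ) {f : G → F}
    (hf : IsClassFun f) : B (fun g => f (g ^ v)) = B f := by
  have : Fintype G := Fintype.ofFinite G
  have hNG : Nat.card N ∣ Nat.card G := Subgroup.card_subgroup_dvd_card N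
  have hv' : v.Coprime (Nat.card N) := Nat.Coprime.coprime_dvd_right hNG hv
  have h1 := cv_pp red h (f := fun x : N => f x) (fun g x => hf g x) hv'
  rw [hfix] at h1
  rw [← hψ f hf, ← hψ _ (pow_class hf v), ← h1]
  rfl

theorem fixG [Finite G] {B : (G → F) → F} {χ : G → ℂ}
    (h : IsIrreducibleCharacter χ) {v : ℕ} (hv : v.Coprime (Nat.card G))
    (hfix : (fun y => χ (y ^ v)) = χ) (hχ : InBlock red B χ) {f : G → F}
    (hf : IsClassFun f) : B (fun g => f (g ^ v)) = B f := by
  have : Fintype G := Fintype.ofFinite G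
  have h1 := cv_pp red h (f := f) (fun g x => hf g x) hv
  rw [hfix] at h1
  rw [← hχ f hf, ← hχ _ (pow_class hf v), ← h1]

/-- **Height zero characters.** -/
theorem main_heightG [Finite G] {B : (G → F) → F} (hB : IsBlock B) {D : Subgroup G}
    (hD : IsDefectGroup p B D) {n : ℕ} (hn : 0 < n) (s : ℂ ≃+* ℂ)
    (hs : PPowerOrder p (Nat.card G) s) :
    ∃ m : ℤ, htSum p n D (fun χ : G → ℂ => FixedBy s χ ∧ InBlock red B χ) -
      (primePart p (Subgroup.normalizer (D : Set G)).index : ℂ) *
        htSum p n (D.subgroupOf (Subgroup.normalizer (D : Set G)))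
          (fun ψ : Subgroup.normalizer (D : Set G) → ℂ => FixedBy s ψ ∧ InInduced red B ψ) =
      p * m := by
  have : Fintype G := Fintype.ofFinite G
  have hpp : p.Prime := hp.out
  obtain ⟨x, hl, -, hDx, hDp, hcard⟩ := hD
  have hx : x ∈ Subgroup.centralizer (D : Set G) := by
    rw [Subgroup.mem_centralizer_iff]
    intro d hd
    exact (Subgroup.mem_centralizer_iff.1 (hDx hd) x rfl).symm
  have hxN : x ∈ NN D := Subgroup.centralizer_le_normalizer _ hx
  have hk : ¬ p ∣ kk D x := by
    intro h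
    have h1 := kk_mul hx
    have h2 : (Nat.card (Subgroup.centralizer ({x} : Set G))).factorization p =
        (kk D x).factorization p + (Nat.card D).factorization p := by
      rw [← h1, Nat.factorization_mul, Finsupp.add_apply]
      · rintro h0
        rw [h0, zero_mul] at h1
        exact Nat.card_pos.ne' h1.symm
      · exact Nat.card_pos.ne'
    have h3 : 0 < (kk D x).factorization p := by
      refine hpp.factorization_pos_of_dvd ?_ h
      rintro h0
      rw [h0, zero_mul] at h1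
      exact Nat.card_pos.ne' h1.symm
    rw [h2] at hcard
    omega
  obtain ⟨v, k, hv, hkv, hsv⟩ := exists_powG Nat.card_pos.ne' s hs
  have hNG : Nat.card (NN D) ∣ Nat.card G := Subgroup.card_subgroup_dvd_card (NN D)
  have hv' : v.Coprime (Nat.card (NN D)) := Nat.Coprime.coprime_dvd_right hNG hv
  have hsv' : ∀ z : ℂ, z ^ Nat.card (NN D) = 1 → s z = z ^ v := fun z hz => hsv z (by
    obtain ⟨c, hc⟩ := hNG
    rw [hc, pow_mul, hz, one_pow])
  obtain ⟨a1, a2, key⟩ := block_height (p := p) red hDp ⟨x, hxN⟩ hx hk hB hl hn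
  rw [htSum_eq hpp hn, htSum_eq hpp hn]
  rw [← Int.cast_natCast (R := ℂ), ← Int.cast_mul]
  apply diff_of_modEq
  rw [← sub_eq_zero, ← Int.cast_sub]
  have hinj : ∀ z : ℤ, ((z : ℤ) : F) = 0 → ((z : ℤ) : ZMod p) = 0 := by
    intro z hz
    rw [CharP.intCast_eq_zero_iff F p] at hz
    exact (ZMod.intCast_zmod_eq_zero_iff_dvd _ p).2 hz
  apply hinj
  push_cast
  rw [dropH hpp hn D _ (fun χ hχ h => a1 χ hχ h.2),
    dropH hpp hn (D.subgroupOf (Subgroup.normalizer (D : Set G))) _ (fun ψ hψ h => a2 ψ hψ h.2)]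
  have fx1 : ∀ χ ∈ Irr G, FixedBy s χ → (fun y => χ (y ^ v)) = χ := by
    intro χ hχ h
    funext y
    rw [← galois_value (IsRepChar.of_irr (mem_Irr.1 hχ)) s v hsv y]
    exact h y
  have fx2 : ∀ ψ ∈ Irr (NN D), FixedBy s ψ → (fun y => ψ (y ^ v)) = ψ := by
    intro ψ hψ h
    funext y
    rw [← galois_value (IsRepChar.of_irr (mem_Irr.1 hψ)) s v hsv' y]
    exact h y
  by_cases hst : ∀ f : G → F, IsClassFun f → B (fun g => f (g ^ v)) = B f
  · have e1 := fixedH (J := G) (p := p) (F := F) (fun χ => InBlock red B χ)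
      (fun χ => ((hw p (D.index.factorization p) n χ : ℤ) : F)) hv hkv s hsv
      (fun χ hχ h => stabG (p := p) red (mem_Irr.1 hχ) hv hkv hst h) (fun χ => by
          show ((hw p _ n (fun y => χ (y ^ v)) : ℤ) : F) = _
          rw [hw_pow χ hv])
    have e2 := fixedH (J := NN D) (p := p) (F := F) (fun ψ => InInduced red B ψ)
      (fun ψ => ((hw p ((DD D).index.factorization p) n ψ : ℤ) : F)) hv' (hkv.of_dvd hNG) s
      hsv' (fun ψ hψ h => stabB (p := p) red (mem_Irr.1 hψ) hv hkv hst h) (fun ψ => by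
          show ((hw p _ n (fun y => ψ (y ^ v)) : ℤ) : F) = _
          rw [hw_pow ψ hv'])
    have fin : ∀ {a b c a' b' : F}, a' = c * b' → a = a' → b = b' → a - c * b = 0 := by
      intro a b c a' b' h1 h2 h3
      rw [h2, h3, h1, sub_self]
    refine fin key ?_ ?_
    · convert e1
    · convert e2
  · have z1 : (Irr G).filter (fun χ => FixedBy s χ ∧ InBlock red B χ) = ∅ := by
      refine Finset.filter_eq_empty_iff.2 fun χ hχ h => hst fun f hf => ?_
      exact fixG red (mem_Irr.1 hχ) hv (fx1 χ hχ h.1) h.2 hf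
    have z2 : (Irr (NN D)).filter (fun ψ => FixedBy s ψ ∧ InInduced red B ψ) = ∅ := by
      refine Finset.filter_eq_empty_iff.2 fun ψ hψ h => hst fun f hf => ?_
      exact fixB red (mem_Irr.1 hψ) hv (fx2 ψ hψ h.1) h.2 hf
    have fin : ∀ {a b c : F}, a = 0 → b = 0 → a - c * b = 0 := by
      intro a b c h1 h2
      rw [h1, h2, mul_zero, sub_zero]
    refine fin ?_ ?_
    · have : ∑ χ ∈ (Irr G).filter (fun χ => FixedBy s χ ∧ InBlock red B χ),
          ((hw p (D.index.factorization p) n χ : ℤ) : F) = 0 := by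
        rw [z1, Finset.sum_empty]
      convert this
    · have : ∑ ψ ∈ (Irr (NN D)).filter (fun ψ => FixedBy s ψ ∧ InInduced red B ψ),
          ((hw p ((DD D).index.factorization p) n ψ : ℤ) : F) = 0 := by
        rw [z2, Finset.sum_empty]
      convert this

end stab

end Pool.Agent.R703.FS
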