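import Pool.Agent.R703.FS.Fix

/-!
# Frobenius–Schur congruences for characters of degree prime to `p`
-/

set_option autoImplicit false
set_option linter.unusedSectionVars false
set_option linter.unusedVariables false

open scoped Classical
open Finset

noncomputable section

namespace Pool.Agent.R703.FS

open Pool.Agent.Y63.AWC (IsIrreducibleCharacter)
open Pool.Agent.Y63.NV
open Pool.Agent.Y930.NV (Cf om irr_one_ne redC_intCast)
open Pool.Agent.Helper884.IC (Irr mem_Irr)
open Pool.Agent.R721.CD (IsRepChar)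
open Pool.Agent.R677.FV (exists_sigma galois_value)
open Pool.Agent.R663.GA (irr_pow cv_pow)

section

variable {J : Type} [Group J] [Fintype J]

theorem indicator_eq (n : ℕ) (χ : J → ℂ) : indicator n χ = nuC n χ := by
  unfold indicator nuC
  rw [finsum_eq_sum_of_fintype]

theorem fsSum_eq {p n : ℕ} (hn : 0 < n) (C : (J → ℂ) → Prop) :
    fsSum p n C = ((∑ χ ∈ (Irr J).filter (fun χ => PrimeTo p χ ∧ C χ), w n χ : ℤ) : ℂ) := by
  unfold fsSum
  have hfin : Finite {χ : J → ℂ // IsIrreducibleCharacter χ ∧ PrimeTo p χ ∧ C χ} := by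
    refine Finite.of_injective (β := {χ // χ ∈ Irr J})
      (fun χ => ⟨χ.1, mem_Irr.2 χ.2.1⟩) ?_
    intro a b hab
    exact Subtype.ext (congrArg (fun x : {χ // χ ∈ Irr J} => x.1) hab)
  have : Fintype {χ : J → ℂ // IsIrreducibleCharacter χ ∧ PrimeTo p χ ∧ C χ} :=
    Fintype.ofFinite _
  rw [finsum_eq_sum_of_fintype]
  push_cast
  refine Finset.sum_bij (fun χ _ => χ.1) ?_ ?_ ?_ ?_
  · intro χ _
    exact Finset.mem_filter.2 ⟨mem_Irr.2 χ.2.1, χ.2.2⟩
  · intro a _ b _ hab
    exact Subtype.ext hab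
  · intro χ hχ
    obtain ⟨h1, h2⟩ := Finset.mem_filter.1 hχ
    exact ⟨⟨χ, mem_Irr.1 h1, h2⟩, Finset.mem_univ _, rfl⟩
  · intro χ _
    rw [w_spec hn χ.2.1, indicator_eq]

/-- in characteristic `p` only the characters of degree prime to `p` count -/
theorem drop {p n : ℕ} {F : Type} [Field F] [CharP F p] (hn : 0 < n) (C : (J → ℂ) → Prop) :
    ∑ χ ∈ (Irr J).filter (fun χ => PrimeTo p χ ∧ C χ), ((w n χ : ℤ) : F) =
      ∑ χ ∈ (Irr J).filter (fun χ => C χ), ((w n χ : ℤ) : F) := by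
  refine Finset.sum_subset ?_ ?_
  · intro χ hχ
    obtain ⟨h1, h2⟩ := Finset.mem_filter.1 hχ
    exact Finset.mem_filter.2 ⟨h1, h2.2⟩
  · intro χ hχ hno
    obtain ⟨h1, h2⟩ := Finset.mem_filter.1 hχ
    have h3 : ¬ PrimeTo p χ := fun h => hno (Finset.mem_filter.2 ⟨h1, h, h2⟩)
    exact (CharP.intCast_eq_zero_iff F p _).2 (w_dvd hn (mem_Irr.1 h1) h3)

/-- only the fixed characters count -/
theorem fixed {p n : ℕ} [Fact p.Prime] {F : Type} [Field F] [CharP F p] (hn : 0 < n)
    (C : (J → ℂ) → Prop) {v k : ℕ} (hv : v.Coprime (Nat.card J))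
    (hk : v ^ (p ^ k) ≡ 1 [MOD Nat.card J]) (s : ℂ ≃+* ℂ)
    (hs : ∀ z : ℂ, z ^ (Nat.card J) = 1 → s z = z ^ v)
    (hC : ∀ χ ∈ Irr J, C χ → C (fun y => χ (y ^ v))) :
    ∑ χ ∈ (Irr J).filter (fun χ => FixedBy s χ ∧ C χ), ((w n χ : ℤ) : F) =
      ∑ χ ∈ (Irr J).filter (fun χ => C χ), ((w n χ : ℤ) : F) := by
  rw [fixsum (p := p) (F := F) ((Irr J).filter (fun χ => C χ)) hv hk ?_
    (fun χ => ((w n χ : ℤ) : F)) ?_]
  · rw [Finset.filter_filter]
    refine Finset.sum_congr (Finset.filter_congr fun χ hχ => ?_) fun _ _ => rfl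
    have h1 : ∀ y, s (χ y) = χ (y ^ v) := fun y =>
      galois_value (IsRepChar.of_irr (mem_Irr.1 hχ)) s v hs y
    unfold FixedBy
    simp only [h1]
    exact and_comm
  · intro χ hχ
    obtain ⟨h1, h2⟩ := Finset.mem_filter.1 hχ
    exact Finset.mem_filter.2 ⟨mem_Irr.2 (irr_pow (mem_Irr.1 h1) hv), hC χ h1 h2⟩
  · intro χ hχ
    show ((w n (fun y => χ (y ^ v)) : ℤ) : F) = _
    rw [w_pow χ hv]

end

/-- the indicators are integers -/
theorem indicator_int {J : Type} [Group J] [Finite J] {n : ℕ} (hn : 0 < n) {χ : J → ℂ}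
    (h : IsIrreducibleCharacter χ) : ∃ z : ℤ, indicator n χ = z := by
  have : Fintype J := Fintype.ofFinite J
  rw [indicator_eq]
  exact nuC_rat hn (irr_rep h)

theorem diff_of_modEq {p : ℕ} {a b : ℤ} (h : ((a : ℤ) : ZMod p) = ((b : ℤ) : ZMod p)) :
    ∃ m : ℤ, (a : ℂ) - (b : ℂ) = p * m := by
  have h1 : ((a - b : ℤ) : ZMod p) = 0 := by
    push_cast
    rw [h, sub_self]
  obtain ⟨m, hm⟩ := (ZMod.intCast_zmod_eq_zero_iff_dvd _ p).1 h1
  refine ⟨m, ?_⟩
  rw [← Int.cast_sub, hm]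
  push_cast
  ring

theorem comp_dvd {p a b : ℕ} (hp : p.Prime) (hab : a ∣ b) (hb : b ≠ 0) :
    a / p ^ a.factorization p ∣ b / p ^ b.factorization p := by
  exact Nat.ordCompl_dvd_ordCompl_of_dvd hab p

/-- **The sums over the characters of a group and of a local subgroup.** -/
theorem main_group {p : ℕ} [Fact p.Prime] {G : Type} [Group G] [Finite G] {Q H : Subgroup G}
    (hQ : IsPGroup p Q) (hQH : Q ≤ H) (hC : Subgroup.centralizer (Q : Set G) ≤ H) {n : ℕ}
    (hn : 0 < n) (s : ℂ ≃+* ℂ) (hs : IsPPower p (Nat.card G) s) :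
    ∃ m : ℤ, fsSum p n (fun χ : G → ℂ => FixedBy s χ) -
      fsSum p n (fun ψ : H → ℂ => FixedBy s ψ) = p * m := by
  have : Fintype G := Fintype.ofFinite G
  have hp : p.Prime := Fact.out
  obtain ⟨v, k, hv, hk, hv1, hsv⟩ := exists_pow hp Nat.card_pos.ne' s hs
  have hHG : Nat.card H ∣ Nat.card G := Subgroup.card_subgroup_dvd_card H
  rw [fsSum_eq hn, fsSum_eq hn]
  apply diff_of_modEq
  push_cast
  rw [drop hn, drop hn]
  have e1 := fixed (J := G) (p := p) (F := ZMod p) hn (fun _ => True) hv hk s hsv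
    (fun _ _ _ => trivial)
  have e2 := fixed (J := H) (p := p) (F := ZMod p) hn (fun _ => True)
    (Nat.Coprime.coprime_dvd_right hHG hv) (hk.of_dvd hHG) s
    (fun z hz => hsv z (by
      obtain ⟨c, hc⟩ := hHG
      rw [hc, pow_mul, hz, one_pow])) (fun _ _ _ => trivial)
  simp only [and_true, Finset.filter_true] at e1 e2
  rw [e1, e2]
  have h1 := cnt (J := G) hn
  have h2 := cnt (J := H) hn
  rw [← Int.cast_sum, ← Int.cast_sum, h1, h2]
  have h3 := sum_local (p := p) (F := ZMod p) hQ hQH hC (fun g => if g ^ n = 1 then 1 else 0) (by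
    intro q _ g
    have : (q * g * q⁻¹) ^ n = 1 ↔ g ^ n = 1 := by
      rw [conj_pow]
      constructor
      · intro h
        have h2 : g ^ n = q⁻¹ * (q * g ^ n * q⁻¹) * q := by group
        rw [h2, h]
        group
      · intro h
        rw [h]
        group
    simp only [this])
  rw [Finset.sum_ite, Finset.sum_ite, Finset.sum_const_zero, Finset.sum_const_zero, add_zero,
    add_zero, Finset.sum_const, Finset.sum_const, nsmul_eq_mul, nsmul_eq_mul, mul_one, mul_one] at h3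
  have e3 : (univ.filter fun x : H => (x : G) ^ n = 1) = univ.filter fun x : H => x ^ n = 1 := by
    refine Finset.filter_congr fun x _ => ?_
    rw [← SubgroupClass.coe_pow]
    exact OneMemClass.coe_eq_one
  rw [e3] at h3
  push_cast
  convert h3

/-- **The blockwise version.** -/
theorem main_block {p : ℕ} [Fact p.Prime] {F : Type} [Field F] [CharP F p]
    (red : integralClosure ℤ ℂ →+* F) {G : Type} [Group G] [Finite G] {Q N : Subgroup G}
    (hQ : IsPGroup p Q) (hN : N = Subgroup.normalizer (Q : Set G)) {n : ℕ}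
    (hn : 0 < n) (s : ℂ ≃+* ℂ) (hs : IsPPower p (Nat.card G) s) {B : (G → F) → F}
    (hB : IsBlock B) :
    ∃ m : ℤ, fsSum p n (fun χ : G → ℂ => FixedBy s χ ∧
        ∀ f : G → F, IsClassFun f → centralValue red χ f = B f) -
      fsSum p n (fun ψ : N → ℂ => FixedBy s ψ ∧
        ∀ f : G → F, IsClassFun f → centralValue red ψ (fun x : N => f x) = B f) = p * m := by
  have : Fintype G := Fintype.ofFinite G
  have hp : p.Prime := Fact.out
  obtain ⟨v, k, hv, hk, hv1, hsv⟩ := exists_pow hp Nat.card_pos.ne' s hs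
  have hNG : Nat.card N ∣ Nat.card G := Subgroup.card_subgroup_dvd_card N
  have hv' : v.Coprime (Nat.card N) := Nat.Coprime.coprime_dvd_right hNG hv
  rw [fsSum_eq hn, fsSum_eq hn]
  apply diff_of_modEq
  rw [← sub_eq_zero, ← Int.cast_sub]
  have hinj : ∀ z : ℤ, ((z : ℤ) : F) = 0 → ((z : ℤ) : ZMod p) = 0 := by
    intro z hz
    rw [CharP.intCast_eq_zero_iff F p] at hz
    exact (ZMod.intCast_zmod_eq_zero_iff_dvd _ p).2 hz
  apply hinj
  push_cast
  rw [drop hn, drop hn]
  have h1 := block_F (p := p) red hn hQ hN hB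
  have e1 : ∀ χ ∈ (Irr G).filter (fun χ => ∀ f : G → F, IsClassFun f → centralValue red χ f = B f),
      redC red (χ 1 * nuC n χ) = ((w n χ : ℤ) : F) := by
    intro χ hχ
    rw [← w_spec hn (mem_Irr.1 (Finset.mem_filter.1 hχ).1), redC_intCast]
  have e2 : ∀ ψ ∈ (Irr N).filter (fun ψ => ∀ f : G → F, IsClassFun f →
      centralValue red ψ (fun x : N => f x) = B f),
      redC red (ψ 1 * nuC n ψ) = ((w n ψ : ℤ) : F) := by
    intro ψ hψ
    rw [← w_spec hn (mem_Irr.1 (Finset.mem_filter.1 hψ).1), redC_intCast]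
  rw [Finset.sum_congr rfl e1, Finset.sum_congr rfl e2] at h1
  have key : ∀ {a b a' b' : F}, a' = b' → a = a' → b = b' → a - b = 0 := by
    intro a b a' b' h1 h2 h3
    rw [h2, h3, h1, sub_self]
  refine key h1 ?_ ?_
  · convert fixed (J := G) (p := p) (F := F) hn
      (fun χ => ∀ f : G → F, IsClassFun f → centralValue red χ f = B f) hv hk s hsv
      (fun χ hχ h f hf => by
        rw [cv_pow (p := p) red (mem_Irr.1 hχ) f hv hv1]
        exact h f hf)
  · convert fixed (J := N) (p := p) (F := F) hn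
      (fun ψ => ∀ f : G → F, IsClassFun f → centralValue red ψ (fun x : N => f x) = B f) hv'
      (hk.of_dvd hNG) s
      (fun z hz => hsv z (by
        obtain ⟨c, hc⟩ := hNG
        rw [hc, pow_mul, hz, one_pow]))
      (fun ψ hψ h f hf => by
        rw [cv_pow (p := p) red (mem_Irr.1 hψ) _ hv'
          (hv1.of_dvd (comp_dvd hp hNG Nat.card_pos.ne'))]
        exact h f hf)

end Pool.Agent.R703.FS
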