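import Pool.Agent.R703.FS.DefsH
import Pool.Agent.R703.FS.Fus
import Pool.Agent.R703.FS.Main

/-!
# Frobenius–Schur congruences for characters of height zero
-/

set_option autoImplicit false
set_option linter.unusedSectionVars false
set_option linter.unusedVariables false

open scoped Classical
open Finset

noncomputable section

namespace Pool.Agent.R703.FS

open Pool.Agent.Y63.AWC (IsIrreducibleCharacter)
open Pool.Agent.Y63.NV
open Pool.Agent.Y930.NV (Cf om irr_one_ne redC_intCast redC_mul int_intCast)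
open Pool.Agent.Helper884.IC (Irr mem_Irr)
open Pool.Agent.R721.CD (IsRepChar)
open Pool.Agent.R677.FV (exists_sigma galois_value)
open Pool.Agent.R663.GA (irr_pow cv_pow)
open Pool.Agent.H254R3.IN (NN DD le_NN kk kk_mul kk_congr kk_modEq le_centralizer card_class_mul
  card_class_pos mem_cent_DD card_DD pgroup_DD)

section wt

variable {J : Type} [Group J] [Fintype J]

/-- the integer `χ(1)/p^e ν_n(χ)` -/
def hw (p e n : ℕ) (χ : J → ℂ) : ℤ :=
  if h : ∃ z : ℤ, χ 1 / (p : ℂ) ^ e * nuC n χ = z then h.choose else 0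

theorem hw_spec {p e n : ℕ} (hp : p.Prime) (hn : 0 < n) {χ : J → ℂ}
    (h : IsIrreducibleCharacter χ) {d k : ℕ} (hd : χ 1 = d) (hk : d = p ^ e * k) :
    ((hw p e n χ : ℤ) : ℂ) = χ 1 / (p : ℂ) ^ e * nuC n χ ∧
      ∃ z : ℤ, nuC n χ = z ∧ hw p e n χ = k * z := by
  have hpC : (p : ℂ) ^ e ≠ 0 := pow_ne_zero _ (by exact_mod_cast hp.ne_zero)
  obtain ⟨z, hz⟩ := nuC_rat hn (irr_rep h)
  have h0 : χ 1 / (p : ℂ) ^ e * nuC n χ = ((k * z : ℤ) : ℂ) := by
    rw [hd, hk, hz]
    push_cast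
    field_simp
  have h1 : ∃ z : ℤ, χ 1 / (p : ℂ) ^ e * nuC n χ = z := ⟨_, h0⟩
  have h2 : ((hw p e n χ : ℤ) : ℂ) = χ 1 / (p : ℂ) ^ e * nuC n χ := by
    unfold hw
    rw [dif_pos h1]
    exact h1.choose_spec.symm
  refine ⟨h2, z, hz, ?_⟩
  rw [h0] at h2
  exact_mod_cast h2

theorem hw_pow {p e n : ℕ} (χ : J → ℂ) {v : ℕ} (hv : v.Coprime (Nat.card J)) :
    hw p e n (fun y => χ (y ^ v)) = hw p e n χ := by
  have h1 : (fun y => χ (y ^ v)) 1 / (p : ℂ) ^ e * nuC n (fun y => χ (y ^ v)) =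
      χ 1 / (p : ℂ) ^ e * nuC n χ := by
    have e1 : (fun y => χ (y ^ v)) 1 = χ 1 := by
      show χ (1 ^ v) = χ 1
      rw [one_pow]
    rw [e1]
    unfold nuC
    congr 2
    rw [← Equiv.sum_comp (Pool.Agent.R663.GA.powE J hv) (fun g => χ (g ^ n))]
    refine Finset.sum_congr rfl fun g _ => ?_
    rw [Pool.Agent.R663.GA.powE_apply]
    show χ ((g ^ n) ^ v) = _
    rw [← pow_mul, ← pow_mul, mul_comm]
  unfold hw
  rw [h1]

theorem height_spec {p n : ℕ} (hp : p.Prime) (hn : 0 < n) {D : Subgroup J} {χ : J → ℂ}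
    (h : IsIrreducibleCharacter χ) (h0 : HeightZero p D χ) :
    ((hw p (D.index.factorization p) n χ : ℤ) : ℂ) =
      χ 1 / (p : ℂ) ^ D.index.factorization p * nuC n χ := by
  obtain ⟨d, hd, he⟩ := h0
  have h1 : p ^ D.index.factorization p ∣ d := by
    rw [← he]
    exact Nat.ordProj_dvd _ _
  obtain ⟨k, hk⟩ := h1
  exact (hw_spec hp hn h hd hk).1

theorem htSum_eq {p n : ℕ} (hp : p.Prime) (hn : 0 < n) (D : Subgroup J)
    (C : (J → ℂ) → Prop) :
    htSum p n D C = ((∑ χ ∈ (Irr J).filter (fun χ => HeightZero p D χ ∧ C χ),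
      hw p (D.index.factorization p) n χ : ℤ) : ℂ) := by
  unfold htSum
  have hfin : Finite {χ : J → ℂ // IsIrreducibleCharacter χ ∧ HeightZero p D χ ∧ C χ} := by
    refine Finite.of_injective (β := {χ // χ ∈ Irr J})
      (fun χ => ⟨χ.1, mem_Irr.2 χ.2.1⟩) ?_
    intro a b hab
    exact Subtype.ext (congrArg (fun x : {χ // χ ∈ Irr J} => x.1) hab)
  have : Fintype {χ : J → ℂ // IsIrreducibleCharacter χ ∧ HeightZero p D χ ∧ C χ} :=
    Fintype.ofFinite _
  rw [finsum_eq_sum_of_fintype]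
  push_cast
  refine Finset.sum_bij (fun χ _ => χ.1) ?_ ?_ ?_ ?_
  · intro χ _
    exact Finset.mem_filter.2 ⟨mem_Irr.2 χ.2.1, χ.2.2⟩
  · intro a _ b _ hab
    exact Subtype.ext hab
  · intro χ hχ
    obtain ⟨h1, h2⟩ := Finset.mem_filter.1 hχ
    exact ⟨⟨χ, mem_Irr.1 h1, h2⟩, Finset.mem_univ _, rfl⟩
  · intro χ _
    rw [height_spec hp hn χ.2.1 χ.2.2.1, indicator_eq]

/-- in characteristic `p` only the characters of height zero count -/
theorem dropH {p n : ℕ} (hp : p.Prime) {F : Type} [Field F] [CharP F p] (hn : 0 < n)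
    (D : Subgroup J) (C : (J → ℂ) → Prop)
    (hC : ∀ χ ∈ Irr J, C χ → ∀ d : ℕ, χ 1 = d → p ^ D.index.factorization p ∣ d) :
    ∑ χ ∈ (Irr J).filter (fun χ => HeightZero p D χ ∧ C χ),
        ((hw p (D.index.factorization p) n χ : ℤ) : F) =
      ∑ χ ∈ (Irr J).filter (fun χ => C χ), ((hw p (D.index.factorization p) n χ : ℤ) : F) := by
  refine Finset.sum_subset ?_ ?_
  · intro χ hχ
    obtain ⟨h1, h2⟩ := Finset.mem_filter.1 hχ
    exact Finset.mem_filter.2 ⟨h1, h2.2⟩
  · intro χ hχ hno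
    obtain ⟨h1, h2⟩ := Finset.mem_filter.1 hχ
    have h3 : ¬ HeightZero p D χ := fun h => hno (Finset.mem_filter.2 ⟨h1, h, h2⟩)
    obtain ⟨d, hd⟩ := deg_nat (mem_Irr.1 h1)
    have hd0 : d ≠ 0 := by
      rintro rfl
      exact irr_one_ne (mem_Irr.1 h1) (by rw [hd]; simp)
    obtain ⟨k, hk⟩ := hC χ h1 h2 d hd
    obtain ⟨-, z, hz, hw1⟩ := hw_spec hp hn (mem_Irr.1 h1) hd hk
    have h4 : p ∣ k := by
      by_contra h5
      apply h3
      refine ⟨d, hd, ?_⟩
      have hk0 : k ≠ 0 := by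
        rintro rfl
        exact hd0 (by rw [hk, mul_zero])
      rw [hk, Nat.factorization_mul (pow_ne_zero _ hp.ne_zero) hk0, Finsupp.add_apply,
        hp.factorization_pow, Finsupp.single_eq_same, Nat.factorization_eq_zero_of_not_dvd h5,
        add_zero]
    rw [hw1]
    exact (CharP.intCast_eq_zero_iff F p _).2
      (Dvd.dvd.mul_right (Int.natCast_dvd_natCast.2 h4) z)

/-- only the fixed characters count -/
theorem fixedH {p : ℕ} [Fact p.Prime] {F : Type} [Field F] [CharP F p]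
    (C : (J → ℂ) → Prop) (c : (J → ℂ) → F) {v k : ℕ} (hv : v.Coprime (Nat.card J))
    (hk : v ^ (p ^ k) ≡ 1 [MOD Nat.card J]) (s : ℂ ≃+* ℂ)
    (hs : ∀ z : ℂ, z ^ (Nat.card J) = 1 → s z = z ^ v)
    (hC : ∀ χ ∈ Irr J, C χ → C (fun y => χ (y ^ v)))
    (hc : ∀ χ : J → ℂ, c (fun y => χ (y ^ v)) = c χ) :
    ∑ χ ∈ (Irr J).filter (fun χ => FixedBy s χ ∧ C χ), c χ =
      ∑ χ ∈ (Irr J).filter (fun χ => C χ), c χ := by
  rw [fixsum (p := p) (F := F) ((Irr J).filter (fun χ => C χ)) hv hk ?_ c ?_]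
  · rw [Finset.filter_filter]
    refine Finset.sum_congr (Finset.filter_congr fun χ hχ => ?_) fun _ _ => rfl
    have h1 : ∀ y, s (χ y) = χ (y ^ v) := fun y =>
      galois_value (IsRepChar.of_irr (mem_Irr.1 hχ)) s v hs y
    unfold FixedBy
    simp only [h1]
    exact and_comm
  · intro χ hχ
    obtain ⟨h1, h2⟩ := Finset.mem_filter.1 hχ
    exact Finset.mem_filter.2 ⟨mem_Irr.2 (irr_pow (mem_Irr.1 h1) hv), hC χ h1 h2⟩
  · intro χ _
    exact hc χ

end wt

section blk

variable {J : Type} [Group J] [Fintype J] {p : ℕ} [hp : Fact p.Prime] {F : Type} [Field F]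
  [CharP F p] (red : integralClosure ℤ ℂ →+* F)

/-- the sum of the weights over a set of characters with the same value of the central character at a
class sum -/
theorem sumval {n : ℕ} (hn : 0 < n) (x : J) {e c : ℕ} (hc : c = Nat.card {y : J // IsConj x y})
    (he : e = c.factorization p) {l : F} (hl : l ≠ 0)
    (S : Finset (J → ℂ)) (hS : ∀ χ ∈ S, IsIrreducibleCharacter χ ∧
      centralValue red χ (fun y => if IsConj x y then 1 else 0) = l) :
    (∀ χ ∈ S, ∀ d : ℕ, χ 1 = d → p ^ e ∣ d) ∧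
    l * ∑ χ ∈ S, ((hw p e n χ : ℤ) : F) =
      ((c / p ^ e : ℕ) : F) * ∑ χ ∈ S, redC red (χ x * nuC n χ) := by
  have hc0 : c ≠ 0 := hc ▸ (card_class_pos x).ne'
  have key : ∀ χ ∈ S, ∀ d : ℕ, χ 1 = d → p ^ e ∣ d ∧
      l * ((d / p ^ e : ℕ) : F) = ((c / p ^ e : ℕ) : F) * redC red (χ x) := by
    intro χ hχ d hd
    obtain ⟨o, ho, ho2, ho3⟩ := cv_class red (hS χ hχ).1 x
    rw [he]
    exact lamA (p := p) red (hS χ hχ).1 x hc0 hl ho (ho2.trans (hS χ hχ).2) (by rw [ho3, hc]) hd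
  refine ⟨fun χ hχ d hd => (key χ hχ d hd).1, ?_⟩
  rw [Finset.mul_sum, Finset.mul_sum]
  refine Finset.sum_congr rfl fun χ hχ => ?_
  obtain ⟨h1, h2⟩ := hS χ hχ
  obtain ⟨d, hd⟩ := deg_nat h1
  obtain ⟨⟨k, hk⟩, h4⟩ := key χ hχ d hd
  obtain ⟨-, z, hz, hw1⟩ := hw_spec (n := n) hp.out hn h1 hd hk
  have h5 : d / p ^ e = k := by
    rw [hk, Nat.mul_div_cancel_left _ (pow_pos hp.out.pos e)]
  rw [h5] at h4
  rw [hw1, hz, redC_mul red (val_int h1 x) (int_intCast z), redC_intCast]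
  push_cast
  rw [← mul_assoc, h4, mul_assoc]

end blk

section grp

variable {G : Type} [Group G] [Fintype G] {p : ℕ} [hp : Fact p.Prime] {D : Subgroup G}

theorem ppart_mul {a b : ℕ} (ha : a ≠ 0) (hb : ¬ p ∣ b) :
    (a * b).factorization p = a.factorization p ∧
      a * b / p ^ (a * b).factorization p = a / p ^ a.factorization p * b := by
  have hb0 : b ≠ 0 := by rintro rfl; exact hb (dvd_zero _)
  have h1 : (a * b).factorization p = a.factorization p := by
    rw [Nat.factorization_mul ha hb0, Finsupp.add_apply, Nat.factorization_eq_zero_of_not_dvd hb,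
      add_zero]
  refine ⟨h1, ?_⟩
  rw [h1, mul_comm a b, Nat.mul_div_assoc _ (Nat.ordProj_dvd a p), mul_comm]

/-- the class size and the index of `D` -/
theorem class_index {x : G} (hx : x ∈ Subgroup.centralizer (D : Set G)) :
    Nat.card {y : G // IsConj x y} * kk D x = D.index := by
  have h1 := card_class_mul x
  rw [← kk_mul hx, ← mul_assoc] at h1
  have h2 := D.card_mul_index
  have h3 : 0 < Nat.card D := Nat.card_pos
  apply Nat.eq_of_mul_eq_mul_right h3
  rw [h1, mul_comm D.index, h2]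

theorem sizes (hD : IsPGroup p D) {x : NN D} (hx : (x : G) ∈ Subgroup.centralizer (D : Set G))
    (hk : ¬ p ∣ kk D (x : G)) :
    (Nat.card {y : G // IsConj (x : G) y}).factorization p = D.index.factorization p ∧
    (Nat.card {y : NN D // IsConj x y}).factorization p = (DD D).index.factorization p ∧
    ∀ (F : Type) [Field F] [CharP F p],
      ((primePart p (Nat.card {y : G // IsConj (x : G) y}) : ℕ) : F) =
        ((primePart p (NN D).index : ℕ) : F) *
          ((primePart p (Nat.card {y : NN D // IsConj x y}) : ℕ) : F) := by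
  have h1 := class_index hx
  have hx' : x ∈ Subgroup.centralizer (DD D : Set (NN D)) := (mem_cent_DD x).2 hx
  have h2 := class_index (G := NN D) (D := DD D) hx'
  have h3 := kk_modEq (p := p) hD x hx
  have hk' : ¬ p ∣ kk (DD D) x := by
    intro h
    exact hk ((h3.dvd_iff (dvd_refl p)).1 h)
  have hc1 := (card_class_pos (x : G)).ne'
  have hc2 := (card_class_pos x).ne'
  obtain ⟨e1, e1'⟩ := ppart_mul (p := p) hc1 hk
  obtain ⟨e2, e2'⟩ := ppart_mul (p := p) hc2 hk'
  rw [h1] at e1 e1'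
  rw [h2] at e2 e2'
  refine ⟨e1.symm, e2.symm, ?_⟩
  intro F _ _
  have h4 : D.index = (DD D).index * (NN D).index := by
    have := Subgroup.relIndex_mul_index (le_NN D)
    rw [← this]
    rfl
  have hN0 : (NN D).index ≠ 0 := Subgroup.index_ne_zero_of_finite
  have hD0 : (DD D).index ≠ 0 := Subgroup.index_ne_zero_of_finite
  have h5 : D.index / p ^ D.index.factorization p =
      ((DD D).index / p ^ (DD D).index.factorization p) *
        ((NN D).index / p ^ (NN D).index.factorization p) := by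
    rw [h4]
    exact Nat.ordCompl_mul _ _ _
  rw [e1', e2'] at h5
  have h6 : ((kk D (x : G) : ℕ) : F) = ((kk (DD D) x : ℕ) : F) := by
    have := (CharP.natCast_eq_natCast F p).2 h3
    exact this.symm
  have h7 : ((kk D (x : G) : ℕ) : F) ≠ 0 := nat_ne (p := p) hk
  have h8 := congrArg (Nat.cast : ℕ → F) h5
  push_cast at h8
  rw [← h6] at h8
  unfold primePart
  apply mul_right_cancel₀ h7
  rw [h8]
  ring

end grp

end Pool.Agent.R703.FS
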