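import Pool.Agent.R703.FS.Tr
import Pool.Agent.R674.KB.Blk
import Pool.Agent.R674.KB.Kdim
import Pool.Agent.R663.GA.Gal

/-!
# Sums of Frobenius–Schur indicators weighted by central characters
-/

set_option autoImplicit false
set_option linter.unusedSectionVars false
set_option linter.unusedVariables false

open scoped Classical
open Finset

noncomputable section

namespace Pool.Agent.R703.FS

open Pool.Agent.Y63.AWC (IsIrreducibleCharacter)
open Pool.Agent.Y63.NV
open Pool.Agent.Y930.NV (Cf ind mk_out Cf_out Cf_expand ind_out om om_sum om_int irr_Cf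
  R centralValue_eq redC_of redC_mul redC_add redC_sum redC_intCast int_intCast ind_cast Cf_ind irr_one_ne om_ind)
open Pool.Agent.Helper884.IC (Irr mem_Irr expand B_irr B IsIrrChar IsClass)
open Pool.Agent.R721.CD (IsRepChar mult_nat_rep expand_at)
open Pool.Agent.R677.FV (exists_sigma galois_value)

section

variable {J : Type} [Group J] [Fintype J]

/-- the `n`-th Frobenius–Schur indicator as a complex number -/
def nuC (n : ℕ) (χ : J → ℂ) : ℂ := (Nat.card J : ℂ)⁻¹ * ∑ g : J, χ (g ^ n)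

theorem nuC_int {n : ℕ} (hn : 0 < n) {χ : J → ℂ} (h : IsRepChar χ) : IsIntegral ℤ (nuC n χ) := by
  obtain ⟨V, _, _, _, rho, rfl⟩ := h
  let b := Module.finBasis ℂ V
  let M : J →* Matrix (Fin (Module.finrank ℂ V)) (Fin (Module.finrank ℂ V)) ℂ :=
    { toFun := fun g => LinearMap.toMatrixAlgEquiv b (rho g)
      map_one' := by rw [map_one, map_one]
      map_mul' := fun g h => by rw [map_mul, map_mul] }
  have h1 := nu_int_mat hn M
  unfold nuC
  rw [Nat.card_eq_fintype_card]
  have h2 : ∀ g : J, (M g).trace = rho.character g := by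
    intro g
    change (LinearMap.toMatrix b b (rho g)).trace = _
    rw [← LinearMap.trace_eq_matrix_trace ℂ b]
    rfl
  simpa only [h2] using h1

/-- the key identity over the complex numbers -/
theorem key_C (n : ℕ) {f : J → ℂ} (hf : Cf f) :
    ∑ χ ∈ Irr J, om χ f * (χ 1 * nuC n χ) = ∑ g : J, f ((g ^ n)⁻¹) := by
  set f' : J → ℂ := fun x => f x⁻¹ with hf'
  have hcf : IsClass f' := by
    intro g y
    show f (_)⁻¹ = f _⁻¹
    have := hf y g⁻¹
    rw [← this]
    congr 1
    group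
  have h1 : ∀ g : J, f ((g ^ n)⁻¹) = ∑ χ ∈ Irr J, B f' χ * χ (g ^ n) := by
    intro g
    have h2 := congrFun (expand f' hcf) (g ^ n)
    rw [Finset.sum_apply] at h2
    exact h2
  rw [Finset.sum_congr rfl fun g _ => h1 g, Finset.sum_comm]
  refine Finset.sum_congr rfl fun χ hχ => ?_
  have hχ1 := irr_one_ne (mem_Irr.1 hχ)
  rw [← Finset.mul_sum]
  unfold om nuC B
  have h3 : ∑ g : J, f' g * χ g⁻¹ = ∑ g : J, f g * χ g := by
    rw [← Equiv.sum_comp (Equiv.inv J) (fun g => f g * χ g)]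
    rfl
  rw [h3]
  field_simp

theorem irr_rep {χ : J → ℂ} (h : IsIrreducibleCharacter χ) : IsRepChar χ := IsRepChar.of_irr h

theorem deg_nat {χ : J → ℂ} (h : IsIrreducibleCharacter χ) : ∃ d : ℕ, χ 1 = d := by
  obtain ⟨V, _, _, _, ρ, hr, rfl⟩ := h
  exact ⟨_, ρ.char_one⟩

theorem deg_int {χ : J → ℂ} (h : IsIrreducibleCharacter χ) : IsIntegral ℤ (χ 1) := by
  obtain ⟨d, hd⟩ := deg_nat h
  rw [hd]
  exact_mod_cast int_intCast (d : ℤ)

/-- the key identity after reduction -/
theorem key_F {F : Type} [Field F] (red : integralClosure ℤ ℂ →+* F) {n : ℕ} (hn : 0 < n)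
    {f : J → F} (hf : IsClassFun f) :
    ∑ χ ∈ Irr J, centralValue red χ f * redC red (χ 1 * nuC n χ) = ∑ g : J, f ((g ^ n)⁻¹) := by
  have hint : ∀ χ ∈ Irr J, IsIntegral ℤ (χ 1 * nuC n χ) := fun χ hχ =>
    (deg_int (mem_Irr.1 hχ)).mul (nuC_int hn (irr_rep (mem_Irr.1 hχ)))
  have h1 : ∀ χ ∈ Irr J, centralValue red χ f * redC red (χ 1 * nuC n χ) =
      ∑ C : ConjClasses J, f C.out * redC red (om χ (ind ℂ C) * (χ 1 * nuC n χ)) := by
    intro χ hχ
    rw [centralValue_eq red (mem_Irr.1 hχ), Finset.sum_mul]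
    refine Finset.sum_congr (Finset.ext fun _ => by simp) fun C _ => ?_
    rw [mul_assoc]
    congr 1
    unfold R
    have hom : IsIntegral ℤ (om χ (ind ℂ C)) := by
      rw [← ind_cast]
      exact om_int (mem_Irr.1 hχ) (Cf_ind ℤ C)
    rw [ind_cast, redC_mul red hom (hint χ hχ)]
  rw [Finset.sum_congr rfl h1, Finset.sum_comm]
  have h2 : ∀ C : ConjClasses J, ∑ χ ∈ Irr J, f C.out * redC red (om χ (ind ℂ C) * (χ 1 * nuC n χ)) =
      ∑ g : J, f C.out * ind F C ((g ^ n)⁻¹) := by
    intro C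
    rw [← Finset.mul_sum, ← Finset.mul_sum]
    congr 1
    rw [← redC_sum red]
    · rw [key_C n (Cf_ind ℂ C)]
      have h3 : ∑ g : J, ind ℂ C ((g ^ n)⁻¹) = ((∑ g : J, ind ℤ C ((g ^ n)⁻¹) : ℤ) : ℂ) := by
        push_cast
        refine Finset.sum_congr rfl fun g _ => ?_
        exact (congrFun (ind_cast C) _).symm
      rw [h3, redC_intCast]
      push_cast
      refine Finset.sum_congr rfl fun g _ => ?_
      exact Pool.Agent.R674.KB.ind_int F C _
    · intro χ hχ
      have hom : IsIntegral ℤ (om χ (ind ℂ C)) := by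
        rw [← ind_cast]
        exact om_int (mem_Irr.1 hχ) (Cf_ind ℤ C)
      exact hom.mul (hint χ hχ)
  rw [Finset.sum_congr rfl fun C _ => h2 C, Finset.sum_comm]
  refine Finset.sum_congr rfl fun g _ => ?_
  refine ((Cf_expand hf _).trans ?_).symm
  exact Finset.sum_congr (Finset.ext fun _ => by simp) fun C _ => rfl

end

end Pool.Agent.R703.FS
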