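import Pool.Agent.R703.FS.Ht

/-!
# Frobenius–Schur congruences for characters of height zero in a block
-/

set_option autoImplicit false
set_option linter.unusedSectionVars false
set_option linter.unusedVariables false

open scoped Classical
open Finset

noncomputable section

namespace Pool.Agent.R703.FS

open Pool.Agent.Y63.AWC (IsIrreducibleCharacter)
open Pool.Agent.Y63.NV
open Pool.Agent.Y930.NV (Cf om irr_one_ne redC_intCast redC_mul int_intCast)
open Pool.Agent.Helper884.IC (Irr mem_Irr)
open Pool.Agent.R721.CD (IsRepChar)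
open Pool.Agent.R663.GA (irr_pow cv_pow)
open Pool.Agent.H254R3.IN (NN DD le_NN kk kk_mul kk_congr kk_modEq le_centralizer card_class_mul
  card_class_pos mem_cent_DD card_DD pgroup_DD)

variable {p : ℕ} [hp : Fact p.Prime] {F : Type} [Field F] [CharP F p]
  (red : integralClosure ℤ ℂ →+* F) {G : Type} [Group G]

theorem isClassFun_conj {J : Type} [Group J] (x : J) :
    IsClassFun (fun y : J => if IsConj x y then (1 : F) else 0) := by
  intro g y
  have h1 : IsConj y (g * y * g⁻¹) := isConj_iff.2 ⟨g, rfl⟩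
  have : IsConj x (g * y * g⁻¹) ↔ IsConj x y :=
    ⟨fun h => h.trans h1.symm, fun h => h.trans h1⟩
  simp only [this]

theorem block_height [Fintype G] {D : Subgroup G} (hD : IsPGroup p D) (x : NN D)
    (hx : (x : G) ∈ Subgroup.centralizer (D : Set G)) (hk : ¬ p ∣ kk D (x : G))
    {B : (G → F) → F} (hB : IsBlock B) (hl : classValue B (x : G) ≠ 0) {n : ℕ} (hn : 0 < n) :
    (∀ χ ∈ Irr G, InBlock red B χ → ∀ d : ℕ, χ 1 = d → p ^ D.index.factorization p ∣ d) ∧
    (∀ ψ ∈ Irr (NN D), InInduced red B ψ → ∀ d : ℕ, ψ 1 = d →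
      p ^ (DD D).index.factorization p ∣ d) ∧
    ∑ χ ∈ (Irr G).filter (fun χ => InBlock red B χ),
        ((hw p (D.index.factorization p) n χ : ℤ) : F) =
      ((primePart p (NN D).index : ℕ) : F) *
        ∑ ψ ∈ (Irr (NN D)).filter (fun ψ => InInduced red B ψ),
          ((hw p ((DD D).index.factorization p) n ψ : ℤ) : F) := by
  obtain ⟨s1, s2, s3⟩ := sizes hD hx hk
  have hxD : x ∈ Subgroup.centralizer (DD D : Set (NN D)) := (mem_cent_DD x).2 hx
  have v1 : ∀ χ ∈ (Irr G).filter (fun χ => InBlock red B χ), IsIrreducibleCharacter χ ∧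
      centralValue red χ (fun y => if IsConj (x : G) y then 1 else 0) = classValue B (x : G) := by
    intro χ hχ
    obtain ⟨h1, h2⟩ := Finset.mem_filter.1 hχ
    exact ⟨mem_Irr.1 h1, h2 _ (isClassFun_conj _)⟩
  have v2 : ∀ ψ ∈ (Irr (NN D)).filter (fun ψ => InInduced red B ψ), IsIrreducibleCharacter ψ ∧
      centralValue red ψ (fun y => if IsConj x y then 1 else 0) = classValue B (x : G) := by
    intro ψ hψ
    obtain ⟨h1, h2⟩ := Finset.mem_filter.1 hψ
    refine ⟨mem_Irr.1 h1, ?_⟩
    have h3 := h2 (fun y => if IsConj (x : G) y then 1 else 0) (isClassFun_conj _)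
    have hcl : IsClassFun (fun y : NN D => if IsConj (x : G) (y : G) then (1 : F) else 0) :=
      fun g y => isClassFun_conj (F := F) (x : G) g y
    have h4 := Pool.Agent.R674.KB.blk_cut (p := p) (Q := DD D) (pgroup_DD hD)
      (Pool.Agent.Y930.NV.cvh F red (NN D) ψ (mem_Irr.1 h1)) hcl
    have h5 : cut (fun y : NN D => if IsConj (x : G) (y : G) then (1 : F) else 0)
        (Subgroup.centralizer (DD D : Set (NN D))) = fun y => if IsConj x y then 1 else 0 := by
      funext y
      change (if y ∈ Subgroup.centralizer (DD D : Set (NN D)) then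
        (if IsConj (x : G) (y : G) then (1 : F) else 0) else 0) = if IsConj x y then 1 else 0
      by_cases hxy : IsConj x y
      · have hy1 : y ∈ Subgroup.centralizer (DD D : Set (NN D)) := by
          obtain ⟨c, hc⟩ := isConj_iff.1 hxy
          rw [← hc]
          have hn : (Subgroup.centralizer (DD D : Set (NN D))).Normal := inferInstance
          exact hn.conj_mem _ hxD c
        have hy2 : IsConj (x : G) (y : G) := by
          obtain ⟨c, hc⟩ := isConj_iff.1 hxy
          exact isConj_iff.2 ⟨(c : G), by rw [← hc]; rfl⟩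
        rw [if_pos hy1, if_pos hxy, if_pos hy2]
      · rw [if_neg hxy]
        split_ifs with h6 h7
        · exact absurd (fus hD hx ((mem_cent_DD y).1 h6) h7 hk) hxy
        · rfl
        · rfl
    rw [h5] at h4
    rw [← h4]
    exact h3
  obtain ⟨a1, b1⟩ := sumval (p := p) red hn (x : G) rfl s1.symm hl _ v1
  obtain ⟨a2, b2⟩ := sumval (p := p) red hn x rfl s2.symm hl _ v2
  refine ⟨fun χ hχ h => a1 χ (Finset.mem_filter.2 ⟨hχ, h⟩),
    fun ψ hψ h => a2 ψ (Finset.mem_filter.2 ⟨hψ, h⟩), ?_⟩
  have h6 := block_Fy (p := p) red hn (Q := D) (N := NN D) hD rfl hB x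
    (fun q hq => Subgroup.mem_centralizer_iff.1 hx q hq)
  apply mul_left_cancel₀ hl
  have s3' := s3 F
  unfold primePart at s3'
  rw [s1, s2] at s3'
  rw [b1, s3']
  have h7 : ∑ χ ∈ (Irr G).filter (fun χ => InBlock red B χ), redC red (χ (x : G) * nuC n χ) =
      ∑ ψ ∈ (Irr (NN D)).filter (fun ψ => InInduced red B ψ), redC red (ψ x * nuC n ψ) := h6
  rw [h7]
  unfold primePart
  rw [mul_assoc, ← b2]
  ring

/-- **Height zero characters.** -/
theorem main_height [Finite G] {B : (G → F) → F} (hB : IsBlock B) {D : Subgroup G}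
    (hD : IsDefectGroup p B D) {n : ℕ} (hn : 0 < n) (s : ℂ ≃+* ℂ)
    (hs : IsPPower p (Nat.card G) s) :
    ∃ m : ℤ, htSum p n D (fun χ : G → ℂ => FixedBy s χ ∧ InBlock red B χ) -
      (primePart p (Subgroup.normalizer (D : Set G)).index : ℂ) *
        htSum p n (D.subgroupOf (Subgroup.normalizer (D : Set G)))
          (fun ψ : Subgroup.normalizer (D : Set G) → ℂ => FixedBy s ψ ∧ InInduced red B ψ) =
      p * m := by
  have : Fintype G := Fintype.ofFinite G
  have hpp : p.Prime := hp.out
  obtain ⟨x, hl, -, hDx, hDp, hcard⟩ := hD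
  have hx : x ∈ Subgroup.centralizer (D : Set G) := by
    rw [Subgroup.mem_centralizer_iff]
    intro d hd
    exact (Subgroup.mem_centralizer_iff.1 (hDx hd) x rfl).symm
  have hxN : x ∈ NN D := Subgroup.centralizer_le_normalizer _ hx
  have hk : ¬ p ∣ kk D x := by
    intro h
    have h1 := kk_mul hx
    have h2 : (Nat.card (Subgroup.centralizer ({x} : Set G))).factorization p =
        (kk D x).factorization p + (Nat.card D).factorization p := by
      rw [← h1, Nat.factorization_mul, Finsupp.add_apply]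
      · rintro h0
        rw [h0, zero_mul] at h1
        exact Nat.card_pos.ne' h1.symm
      · exact Nat.card_pos.ne'
    have h3 : 0 < (kk D x).factorization p := by
      refine hpp.factorization_pos_of_dvd ?_ h
      rintro h0
      rw [h0, zero_mul] at h1
      exact Nat.card_pos.ne' h1.symm
    rw [h2] at hcard
    omega
  obtain ⟨v, k, hv, hkv, hv1, hsv⟩ := exists_pow hpp Nat.card_pos.ne' s hs
  have hNG : Nat.card (NN D) ∣ Nat.card G := Subgroup.card_subgroup_dvd_card (NN D)
  have hv' : v.Coprime (Nat.card (NN D)) := Nat.Coprime.coprime_dvd_right hNG hv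
  obtain ⟨a1, a2, key⟩ := block_height (p := p) red hDp ⟨x, hxN⟩ hx hk hB hl hn
  rw [htSum_eq hpp hn, htSum_eq hpp hn]
  rw [← Int.cast_natCast (R := ℂ), ← Int.cast_mul]
  apply diff_of_modEq
  rw [← sub_eq_zero, ← Int.cast_sub]
  have hinj : ∀ z : ℤ, ((z : ℤ) : F) = 0 → ((z : ℤ) : ZMod p) = 0 := by
    intro z hz
    rw [CharP.intCast_eq_zero_iff F p] at hz
    exact (ZMod.intCast_zmod_eq_zero_iff_dvd _ p).2 hz
  apply hinj
  push_cast
  rw [dropH hpp hn D _ (fun χ hχ h => a1 χ hχ h.2),
    dropH hpp hn (D.subgroupOf (Subgroup.normalizer (D : Set G))) _ (fun ψ hψ h => a2 ψ hψ h.2)]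
  have e1 := fixedH (J := G) (p := p) (F := F) (fun χ => InBlock red B χ)
    (fun χ => ((hw p (D.index.factorization p) n χ : ℤ) : F)) hv hkv s hsv
    (fun χ hχ h f hf => by
      rw [cv_pow (p := p) red (mem_Irr.1 hχ) f hv hv1]
      exact h f hf) (fun χ => by
        show ((hw p _ n (fun y => χ (y ^ v)) : ℤ) : F) = _
        rw [hw_pow χ hv])
  have e2 := fixedH (J := NN D) (p := p) (F := F) (fun ψ => InInduced red B ψ)
    (fun ψ => ((hw p ((DD D).index.factorization p) n ψ : ℤ) : F)) hv' (hkv.of_dvd hNG) s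
    (fun z hz => hsv z (by
      obtain ⟨c, hc⟩ := hNG
      rw [hc, pow_mul, hz, one_pow]))
    (fun ψ hψ h f hf => by
      rw [cv_pow (p := p) red (mem_Irr.1 hψ) _ hv'
        (hv1.of_dvd (comp_dvd hpp hNG Nat.card_pos.ne'))]
      exact h f hf) (fun ψ => by
        show ((hw p _ n (fun y => ψ (y ^ v)) : ℤ) : F) = _
        rw [hw_pow ψ hv'])
  have fin : ∀ {a b c a' b' : F}, a' = c * b' → a = a' → b = b' → a - c * b = 0 := by
    intro a b c a' b' h1 h2 h3
    rw [h2, h3, h1, sub_self]
  refine fin key ?_ ?_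
  · convert e1
  · convert e2

end Pool.Agent.R703.FS
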