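import Mathlib

/-!
# The Frobenius–Schur indicators are algebraic integers

For a representation `ρ` of a finite group `J` the operator
`x_1 ⊗ ... ⊗ x_n ↦ 1/|J| ∑ g, ρ(g) x_2 ⊗ ... ⊗ ρ(g) x_n ⊗ ρ(g) x_1` satisfies `T ^ (n + 1) = T` and has the
trace `1/|J| ∑ g, χ (g ^ n)`.
-/

set_option autoImplicit false
set_option linter.unusedSectionVars false
set_option linter.unusedVariables false
set_option linter.deprecated false

open scoped Classical
open Finset

noncomputable section

namespace Pool.Agent.R703.FS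

/-- the trace of a matrix with `T ^ (n + 1) = T` is an algebraic integer -/
theorem trace_int {ι : Type} [Fintype ι] [DecidableEq ι] (T : Matrix ι ι ℂ) {n : ℕ} (hn : 0 < n)
    (h : T ^ (n + 1) = T) : IsIntegral ℤ T.trace := by
  rw [Matrix.trace_eq_sum_roots_charpoly]
  refine IsIntegral.multiset_sum fun μ hμ => ?_
  have h1 : T.charpoly.IsRoot μ := (Polynomial.mem_roots'.1 hμ).2
  have h2 : Module.End.HasEigenvalue (Matrix.toLin' T) μ := by
    rw [Module.End.hasEigenvalue_iff_isRoot_charpoly, Matrix.charpoly_toLin']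
    exact h1
  obtain ⟨v, hv⟩ := h2.exists_hasEigenvector
  have h3 : ((Matrix.toLin' T) ^ (n + 1)) v = μ ^ (n + 1) • v := hv.pow_apply (n + 1)
  have h4 : (Matrix.toLin' T) ^ (n + 1) = Matrix.toLin' T := by
    rw [← Matrix.toLin'_pow, h]
  rw [h4, hv.apply_eq_smul] at h3
  have h5 : μ = μ ^ (n + 1) := smul_left_injective ℂ hv.2 h3
  refine ⟨Polynomial.X ^ (n + 1) - Polynomial.X, ?_, ?_⟩
  · apply Polynomial.monic_X_pow_sub
    rw [Polynomial.degree_X]
    exact_mod_cast Nat.succ_le_succ (Nat.one_le_iff_ne_zero.2 hn.ne')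
  · rw [Polynomial.eval₂_sub, Polynomial.eval₂_X_pow, Polynomial.eval₂_X, ← h5, sub_self]

section walk
variable {ι : Type} [Fintype ι] [DecidableEq ι]

/-- sums over walks -/
theorem walk (A : Matrix ι ι ℂ) : ∀ (m : ℕ) (f : ι → ι → ℂ),
    ∑ i : Fin (m + 1) → ι, (∏ k : Fin m, A (i k.castSucc) (i k.succ)) * f (i 0) (i (Fin.last m)) =
      ∑ a, ∑ b, (A ^ m) a b * f a b := by
  intro m
  induction m with
  | zero =>
    intro f
    rw [(Equiv.funUnique (Fin 1) ι).symm.sum_comp
      (fun i : Fin 1 → ι => (∏ k : Fin 0, A (i k.castSucc) (i k.succ)) * f (i 0) (i (Fin.last 0))) |>.symm]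
    refine Finset.sum_congr rfl fun a _ => ?_
    rw [Finset.sum_eq_single a]
    · simp
    · intro b _ hb
      simp [Matrix.one_apply_ne hb.symm]
    · intro h
      exact absurd (Finset.mem_univ _) h
  | succ m ih =>
    intro f
    rw [← (Fin.consEquiv (fun _ : Fin (m + 2) => ι)).sum_comp, Fintype.sum_prod_type]
    have h1 : ∀ (a : ι) (i : Fin (m + 1) → ι),
        (∏ k : Fin (m + 1), A ((Fin.consEquiv (fun _ : Fin (m + 2) => ι)) (a, i) k.castSucc)
          ((Fin.consEquiv (fun _ : Fin (m + 2) => ι)) (a, i) k.succ)) *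
          f ((Fin.consEquiv (fun _ : Fin (m + 2) => ι)) (a, i) 0)
            ((Fin.consEquiv (fun _ : Fin (m + 2) => ι)) (a, i) (Fin.last (m + 1))) =
        (∏ k : Fin m, A (i k.castSucc) (i k.succ)) * (A a (i 0) * f a (i (Fin.last m))) := by
      intro a i
      rw [Fin.prod_univ_succ]
      have e1 : ∀ k : Fin m, (Fin.consEquiv (fun _ : Fin (m + 2) => ι)) (a, i) k.succ.castSucc =
          i k.castSucc := by
        intro k
        rw [← Fin.succ_castSucc]
        rfl
      have e2 : (Fin.consEquiv (fun _ : Fin (m + 2) => ι)) (a, i) (Fin.last (m + 1)) =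
          i (Fin.last m) := by
        rw [← Fin.succ_last]
        rfl
      simp only [e1]
      rw [e2]
      change A a (i 0) * (∏ k : Fin m, A (i k.castSucc) (i k.succ)) * f a (i (Fin.last m)) = _
      ring
    simp only [h1]
    have h2 : ∀ a : ι, ∑ i : Fin (m + 1) → ι, (∏ k : Fin m, A (i k.castSucc) (i k.succ)) *
        (A a (i 0) * f a (i (Fin.last m))) = ∑ c, ∑ b, (A ^ m) c b * (A a c * f a b) :=
      fun a => ih (fun c b => A a c * f a b)
    simp only [h2]
    refine Finset.sum_congr rfl fun a _ => ?_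
    rw [Finset.sum_comm]
    refine Finset.sum_congr rfl fun b _ => ?_
    rw [pow_succ', Matrix.mul_apply, Finset.sum_mul]
    refine Finset.sum_congr rfl fun c _ => ?_
    ring

/-- the Kronecker power with a cyclic shift -/
def TT (n : ℕ) (m : ℕ) (A : Matrix ι ι ℂ) : Matrix (Fin n → ι) (Fin n → ι) ℂ :=
  fun i j => ∏ k : Fin n, A (i k) (j (((finRotate n) ^ m) k))

theorem TT_mul (n m m' : ℕ) (A B : Matrix ι ι ℂ) :
    TT n m A * TT n m' B = TT n (m + m') (A * B) := by
  ext i l
  rw [Matrix.mul_apply]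
  unfold TT
  have h1 : ∀ j : Fin n → ι, (∏ k : Fin n, A (i k) (j (((finRotate n) ^ m) k))) *
      (∏ k : Fin n, B (j k) (l (((finRotate n) ^ m') k))) =
      ∏ k : Fin n, A (i k) (j (((finRotate n) ^ m) k)) *
        B (j (((finRotate n) ^ m) k)) (l (((finRotate n) ^ (m + m')) k)) := by
    intro j
    rw [← Equiv.prod_comp ((finRotate n) ^ m) (fun k => B (j k) (l (((finRotate n) ^ m') k))),
      ← Finset.prod_mul_distrib]
    refine Finset.prod_congr rfl fun k _ => ?_
    rw [add_comm m m', pow_add, Equiv.Perm.mul_apply]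
  rw [Finset.sum_congr rfl fun j _ => h1 j]
  rw [← Equiv.sum_comp (Equiv.arrowCongr ((finRotate n) ^ m) (Equiv.refl ι))]
  have h2 : ∀ (j : Fin n → ι) (k : Fin n),
      (Equiv.arrowCongr ((finRotate n) ^ m) (Equiv.refl ι)) j (((finRotate n) ^ m) k) = j k := by
    intro j k
    simp [Equiv.arrowCongr]
  simp only [h2, Matrix.mul_apply]
  rw [Finset.prod_univ_sum, Fintype.piFinset_univ]

theorem TT_one (m : ℕ) (A : Matrix ι ι ℂ) : (TT (m + 1) 1 A).trace = (A ^ (m + 1)).trace := by
  unfold Matrix.trace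
  simp only [Matrix.diag_apply]
  unfold TT
  have h1 : ∀ i : Fin (m + 1) → ι, ∏ k : Fin (m + 1), A (i k) (i (((finRotate (m + 1)) ^ 1) k)) =
      (∏ k : Fin m, A (i k.castSucc) (i k.succ)) * A (i (Fin.last m)) (i 0) := by
    intro i
    rw [Fin.prod_univ_castSucc]
    congr 1
    · refine Finset.prod_congr rfl fun k _ => ?_
      rw [pow_one]
      congr 2
      rw [finRotate_succ_apply]
      exact Fin.coeSucc_eq_succ
    · rw [pow_one, finRotate_last]
  rw [Finset.sum_congr rfl fun i _ => h1 i, walk A m (fun a b => A b a)]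
  refine Finset.sum_congr rfl fun a _ => ?_
  rw [pow_succ, Matrix.mul_apply]

theorem TT_period (n m : ℕ) (A : Matrix ι ι ℂ) : TT n (m + n) A = TT n m A := by
  unfold TT
  rcases Nat.eq_zero_or_pos n with rfl | hn
  · rfl
  · have h : (finRotate n) ^ n = 1 := by
      apply Equiv.ext
      intro k
      obtain ⟨m, rfl⟩ : ∃ m, n = m + 1 := ⟨n - 1, by omega⟩
      have : ∀ j : ℕ, ((((finRotate (m + 1)) ^ j) k : Fin (m + 1)) : ℕ) = ((k : ℕ) + j) % (m + 1) := by
        intro j
        induction j with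
        | zero => simp [Nat.mod_eq_of_lt k.2]
        | succ j ih =>
          rw [pow_succ', Equiv.Perm.mul_apply, finRotate_succ_apply, Fin.val_add, ih, Fin.val_one',
            ← Nat.add_mod, add_assoc]
      apply Fin.ext
      rw [this, Nat.add_mod_right, Nat.mod_eq_of_lt k.2]
      rfl
    rw [pow_add, h, mul_one]

end walk

section group
variable {J : Type} [Group J] [Fintype J] {d : ℕ}

/-- the average -/
def EE (n m : ℕ) (M : J →* Matrix (Fin d) (Fin d) ℂ) :
    Matrix (Fin n → Fin d) (Fin n → Fin d) ℂ :=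
  (Fintype.card J : ℂ)⁻¹ • ∑ g : J, TT n m (M g)

theorem EE_mul (n m m' : ℕ) (M : J →* Matrix (Fin d) (Fin d) ℂ) :
    EE n m M * EE n m' M = EE n (m + m') M := by
  have hc : (Fintype.card J : ℂ) ≠ 0 := by exact_mod_cast Fintype.card_ne_zero
  unfold EE
  rw [smul_mul_smul_comm, Finset.sum_mul_sum]
  have h1 : ∀ g : J, ∑ h : J, TT n m (M g) * TT n m' (M h) = ∑ h : J, TT n (m + m') (M h) := by
    intro g
    rw [← Equiv.sum_comp (Equiv.mulLeft g) (fun h => TT n (m + m') (M h))]
    refine Finset.sum_congr rfl fun h _ => ?_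
    rw [TT_mul, ← map_mul]
    rfl
  rw [Finset.sum_congr rfl fun g _ => h1 g, Finset.sum_const, Finset.card_univ,
    ← Nat.cast_smul_eq_nsmul ℂ, smul_smul]
  congr 1
  field_simp

theorem EE_pow (n : ℕ) (M : J →* Matrix (Fin d) (Fin d) ℂ) (k : ℕ) :
    EE n 1 M ^ (k + 1) = EE n (k + 1) M := by
  induction k with
  | zero => rw [pow_one]
  | succ k ih => rw [pow_succ, ih, EE_mul]

theorem EE_fix {n : ℕ} (hn : 0 < n) (M : J →* Matrix (Fin d) (Fin d) ℂ) :
    EE n 1 M ^ (n + 1) = EE n 1 M := by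
  rw [EE_pow]
  unfold EE
  congr 1
  refine Finset.sum_congr rfl fun g _ => ?_
  rw [add_comm n 1, TT_period]

theorem nu_int_mat {n : ℕ} (hn : 0 < n) (M : J →* Matrix (Fin d) (Fin d) ℂ) :
    IsIntegral ℤ ((Fintype.card J : ℂ)⁻¹ * ∑ g : J, (M (g ^ n)).trace) := by
  have h1 := trace_int (EE n 1 M) hn (EE_fix hn M)
  obtain ⟨m, rfl⟩ : ∃ m, n = m + 1 := ⟨n - 1, by omega⟩
  have h2 : (EE (m + 1) 1 M).trace =
      (Fintype.card J : ℂ)⁻¹ * ∑ g : J, (M (g ^ (m + 1))).trace := by
    unfold EE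
    rw [Matrix.trace_smul, Matrix.trace_sum, smul_eq_mul]
    congr 1
    refine Finset.sum_congr rfl fun g _ => ?_
    rw [TT_one, map_pow]
  rwa [h2] at h1

end group

end Pool.Agent.R703.FS
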